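import Pool.Agent.KQS.Defs

set_option autoImplicit false

/-!
# KQS EXC : the excess part

Cauchy-Schwarz on `A = {z ∈ Om n, 0 ≤ U}`: `∫_A e^U E ≤ (∫_A e^{2U})^{1/2} W^{1/2}`. Levels
`S_j = {z ∈ Om n, j ≤ U < j+1}`, `j < J = ⌊2p log n + C⌋₊ + 1` (`KQU.top_level`),
`|S_j| ≤ (C/n) e^{-j/(2p)}` (`KQU.dist`, `bE ≥ 0`): `∫_A e^{2U} ≤ ∑_{j<J} e^{2(j+1)} |S_j|
≤ (C/n) ∑_{j<J} e^{2αj} ≤ (C/n) e^{2αJ}/(2α)`, `α = 1 - 1/(4p) ≥ p - 1/4`,
`e^{αJ} ≤ C n^{2p-1/2}`.
-/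

open MeasureTheory Metric Set MPV

namespace KQS

/-- Cauchy-Schwarz for two functions on a set -/
private theorem ec_cs (A : Set ℂ) (f g : ℂ → ℝ)
    (hf : AEMeasurable (fun z => ENNReal.ofReal (f z)) (volume.restrict A)) (hg : Measurable g)
    (hf0 : ∀ z, 0 ≤ f z) (hg0 : ∀ z, 0 ≤ g z) {M V : ℝ} (hM0 : 0 ≤ M) (hV0 : 0 ≤ V)
    (hM : ∫⁻ z in A, ENNReal.ofReal (f z ^ 2) ≤ ENNReal.ofReal (M ^ 2))
    (hV : ∫⁻ z in A, ENNReal.ofReal (g z ^ 2) ≤ ENNReal.ofReal V) :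
    ∫⁻ z in A, ENNReal.ofReal (f z * g z) ≤ ENNReal.ofReal (M * Real.sqrt V) := by
  have h := ENNReal.lintegral_mul_le_Lp_mul_Lq (volume.restrict A)
    (p := 2) (q := 2) (Real.HolderConjugate.two_two)
    (f := fun z => ENNReal.ofReal (f z)) (g := fun z => ENNReal.ofReal (g z))
    hf hg.ennreal_ofReal.aemeasurable
  have e0 : ∀ z, ENNReal.ofReal (f z * g z) =
      ((fun z => ENNReal.ofReal (f z)) * fun z => ENNReal.ofReal (g z)) z := by
    intro z
    rw [Pi.mul_apply, ENNReal.ofReal_mul (hf0 z)]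
  rw [lintegral_congr e0]
  refine h.trans ?_
  have e1 : ∀ z, (ENNReal.ofReal (f z)) ^ (2 : ℝ) = ENNReal.ofReal (f z ^ 2) := by
    intro z
    rw [ENNReal.ofReal_rpow_of_nonneg (hf0 z) (by norm_num), Real.rpow_two]
  have e2 : ∀ z, (ENNReal.ofReal (g z)) ^ (2 : ℝ) = ENNReal.ofReal (g z ^ 2) := by
    intro z
    rw [ENNReal.ofReal_rpow_of_nonneg (hg0 z) (by norm_num), Real.rpow_two]
  rw [lintegral_congr fun z => e1 z, lintegral_congr fun z => e2 z, ENNReal.ofReal_mul hM0]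
  refine mul_le_mul' ?_ ?_
  · refine (ENNReal.rpow_le_rpow hM (by norm_num)).trans (le_of_eq ?_)
    rw [ENNReal.ofReal_rpow_of_nonneg (by positivity) (by norm_num), ← Real.sqrt_eq_rpow,
      Real.sqrt_sq hM0]
  · refine (ENNReal.rpow_le_rpow hV (by norm_num)).trans (le_of_eq ?_)
    rw [ENNReal.ofReal_rpow_of_nonneg hV0 (by norm_num), ← Real.sqrt_eq_rpow]

private theorem ec_geom {a : ℝ} (ha : 0 < a) (J : ℕ) :
    ∑ j ∈ Finset.range J, Real.exp (j * a) ≤ Real.exp (J * a) / a := by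
  have h1 : a ≤ Real.exp a - 1 := by
    have := Real.add_one_le_exp a
    linarith
  have hx : Real.exp a ≠ 1 := by
    intro h
    rw [h] at h1
    linarith
  have h2 : ∀ j : ℕ, Real.exp (j * a) = Real.exp a ^ j := fun j => Real.exp_nat_mul a j
  rw [Finset.sum_congr rfl fun j _ => h2 j, h2, geom_sum_eq hx]
  have h3 : 0 < Real.exp a ^ J := pow_pos (Real.exp_pos _) _
  calc (Real.exp a ^ J - 1) / (Real.exp a - 1) ≤ Real.exp a ^ J / (Real.exp a - 1) :=
        div_le_div_of_nonneg_right (by linarith) (by linarith)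
    _ ≤ Real.exp a ^ J / a := div_le_div_of_nonneg_left h3.le ha h1

theorem exc_int : ∃ C : ℝ, 0 < C ∧ ∀ p : ℝ, 1 / 4 < p → p ≤ 1 → ∀ L : ℂ → ℂ, Cls p L →
    (L 0).re = 0 → ∀ n : ℕ, 8 ≤ n → ∀ E : ℂ → ℝ, Measurable E → (∀ z, 0 ≤ E z) →
    ∀ W : ℝ, 0 ≤ W → ∫⁻ z in KQU.Om n, ENNReal.ofReal (E z ^ 2) ≤ ENNReal.ofReal W →
      ∫⁻ z in {z | z ∈ KQU.Om n ∧ 0 ≤ (L z).re},
        ENNReal.ofReal (Real.exp (L z).re * E z) ≤
        ENNReal.ofReal (C / Real.sqrt (p - 1 / 4) * Real.sqrt W * (n : ℝ) ^ (2 * p - 1)) := by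
  obtain ⟨C1, hC1, H1⟩ := KQU.dist
  obtain ⟨C3, hC3, H3⟩ := KQU.top_level
  refine ⟨Real.exp 1 * Real.sqrt C1 * Real.exp (C3 + 1), by positivity,
    fun p hp hp1 L hL hL0 n hn E hE hE0 W hW0 hW => ?_⟩
  set D : ℝ := Real.exp 1 * Real.sqrt C1 * Real.exp (C3 + 1) with hD
  have hD0 : 0 < D := by positivity
  have hp0 : 0 < p := by linarith
  have hn0 : (0 : ℝ) < n := by
    have : 0 < n := by omega
    exact_mod_cast this
  have hn1 : (1 : ℝ) ≤ n := by
    have : 1 ≤ n := by omega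
    exact_mod_cast this
  set c : ℝ := 1 - 1 / (4 * p) with hc
  have hp4 : 0 < p - 1 / 4 := by linarith
  have hcp : p - 1 / 4 ≤ c := by
    have h1 : c = (p - 1 / 4) / p := by
      rw [hc]
      field_simp
    rw [h1, le_div_iff₀ hp0]
    nlinarith
  have hcpos : 0 < c := by linarith
  have hc1 : c ≤ 1 := by
    have : 0 ≤ 1 / (4 * p) := by positivity
    rw [hc]
    linarith
  set A : Set ℂ := {z | z ∈ KQU.Om n ∧ 0 ≤ (L z).re} with hA
  set J : ℕ := ⌊2 * p * Real.log n + C3⌋₊ + 1 with hJ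
  have hlog : 0 ≤ Real.log n := Real.log_nonneg hn1
  -- measurability
  have hAball : A ⊆ ball (0 : ℂ) 1 := by
    intro z hz
    rw [mem_ball_zero_iff]
    have h1 := hz.1.2
    have h2 : 0 < 1 / (n : ℝ) := by positivity
    linarith
  have hfm : AEMeasurable (fun z => ENNReal.ofReal (Real.exp (L z).re)) (volume.restrict A) := by
    have h1 : ContinuousOn (fun z => Real.exp (L z).re) (ball (0 : ℂ) 1) :=
      Real.continuous_exp.comp_continuousOn
        (Complex.continuous_re.comp_continuousOn hL.diff.continuousOn)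
    exact ((h1.aemeasurable isOpen_ball.measurableSet).mono_set hAball).ennreal_ofReal
  -- the levels
  have hlev : ∀ j : ℕ, ∫⁻ z in {z | z ∈ KQU.Om n ∧ (j : ℝ) ≤ (L z).re ∧ (L z).re < j + 1},
      ENNReal.ofReal (Real.exp (L z).re ^ 2) ≤
      ENNReal.ofReal (Real.exp 1 ^ 2 * (C1 / n) * Real.exp (j * (2 * c))) := by
    intro j
    set S : Set ℂ := {z | z ∈ KQU.Om n ∧ (j : ℝ) ≤ (L z).re ∧ (L z).re < j + 1} with hS
    have hj0 : (0 : ℝ) ≤ j := Nat.cast_nonneg j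
    have hB0 : 0 ≤ KQU.bE L (1 - 2 / (n : ℝ)) j := ENNReal.toReal_nonneg
    have hvol : volume S ≤ ENNReal.ofReal (C1 / n * Real.exp (-((j : ℝ) / (2 * p)))) := by
      refine ((measure_mono ?_).trans (H1 p hp.le hp1 L hL hL0 n hn j hj0)).trans ?_
      · intro z hz
        exact ⟨hz.1, hz.2.1⟩
      · refine ENNReal.ofReal_le_ofReal (mul_le_mul_of_nonneg_left (Real.exp_le_exp.2 ?_)
          (by positivity))
        refine neg_le_neg (div_le_div_of_nonneg_right ?_ (by positivity))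
        linarith
    have h1 : ∫⁻ z in S, ENNReal.ofReal (Real.exp (L z).re ^ 2) ≤
        ∫⁻ _ in S, ENNReal.ofReal (Real.exp ((j : ℝ) + 1) ^ 2) := by
      refine setLIntegral_mono measurable_const ?_
      intro z hz
      exact ENNReal.ofReal_le_ofReal (pow_le_pow_left₀ (Real.exp_pos _).le
        (Real.exp_le_exp.mpr hz.2.2.le) 2)
    refine h1.trans ?_
    rw [setLIntegral_const]
    refine (mul_le_mul' le_rfl hvol).trans ?_
    rw [← ENNReal.ofReal_mul (by positivity)]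
    refine ENNReal.ofReal_le_ofReal (le_of_eq ?_)
    have h2 : Real.exp ((j : ℝ) + 1) ^ 2 * Real.exp (-((j : ℝ) / (2 * p))) =
        Real.exp 1 ^ 2 * Real.exp (j * (2 * c)) := by
      rw [← Real.exp_nat_mul, ← Real.exp_nat_mul, ← Real.exp_add, ← Real.exp_add, hc]
      congr 1
      push_cast
      field_simp
      ring
    calc Real.exp ((j : ℝ) + 1) ^ 2 * (C1 / n * Real.exp (-((j : ℝ) / (2 * p))))
        = C1 / n * (Real.exp ((j : ℝ) + 1) ^ 2 * Real.exp (-((j : ℝ) / (2 * p)))) := by ring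
      _ = _ := by rw [h2]; ring
  have hcov : A ⊆
      ⋃ j : Fin J, {z | z ∈ KQU.Om n ∧ ((j : ℕ) : ℝ) ≤ (L z).re ∧ (L z).re < (j : ℕ) + 1} := by
    intro z hz
    refine mem_iUnion.2 ⟨⟨⌊(L z).re⌋₊, ?_⟩, hz.1, Nat.floor_le hz.2, Nat.lt_floor_add_one _⟩
    have h1 := Nat.floor_le_floor (H3 p hp.le hp1 L hL hL0 n hn z hz.1)
    omega
  have hJ1 : (J : ℝ) ≤ 2 * p * Real.log n + C3 + 1 := by
    have h1 := Nat.floor_le (show 0 ≤ 2 * p * Real.log n + C3 by positivity)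
    rw [hJ]
    push_cast
    linarith
  have hexp : Real.exp (J * c) ≤ Real.exp (C3 + 1) * (n : ℝ) ^ (2 * p - 1 / 2) := by
    rw [Real.rpow_def_of_pos hn0, ← Real.exp_add]
    refine Real.exp_le_exp.2 ?_
    have h1 : (J : ℝ) * c ≤ (2 * p * Real.log n + C3 + 1) * c :=
      mul_le_mul_of_nonneg_right hJ1 hcpos.le
    have h2 : 2 * p * Real.log n * c = Real.log n * (2 * p - 1 / 2) := by
      rw [hc]
      field_simp
      ring
    have h3 : (C3 + 1) * c ≤ C3 + 1 := by nlinarith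
    nlinarith
  have hs0 : 0 < Real.sqrt (p - 1 / 4) := Real.sqrt_pos.2 hp4
  have hss : Real.sqrt (p - 1 / 4) ^ 2 = p - 1 / 4 := Real.sq_sqrt hp4.le
  have hsC : Real.sqrt C1 ^ 2 = C1 := Real.sq_sqrt hC1.le
  have hreal : ∑ j ∈ Finset.range J, Real.exp 1 ^ 2 * (C1 / n) * Real.exp (j * (2 * c)) ≤
      (D / Real.sqrt (p - 1 / 4) * (n : ℝ) ^ (2 * p - 1)) ^ 2 := by
    rw [← Finset.mul_sum]
    have h1 : ∑ j ∈ Finset.range J, Real.exp (j * (2 * c)) ≤
        Real.exp (J * c) ^ 2 / (p - 1 / 4) := by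
      refine (ec_geom (by linarith : 0 < 2 * c) J).trans ?_
      have h2 : Real.exp (J * (2 * c)) = Real.exp (J * c) ^ 2 := by
        rw [← Real.exp_nat_mul]
        congr 1
        push_cast
        ring
      rw [h2]
      exact div_le_div_of_nonneg_left (by positivity) hp4 (by linarith)
    have h3 : Real.exp (J * c) ^ 2 ≤ (Real.exp (C3 + 1) * (n : ℝ) ^ (2 * p - 1 / 2)) ^ 2 :=
      pow_le_pow_left₀ (Real.exp_pos _).le hexp 2
    have h5 : ((n : ℝ) ^ (2 * p - 1 / 2)) ^ 2 = ((n : ℝ) ^ (2 * p - 1)) ^ 2 * n := by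
      have h6 : (n : ℝ) ^ (2 * p - 1 / 2) = (n : ℝ) ^ (2 * p - 1) * (n : ℝ) ^ (1 / 2 : ℝ) := by
        rw [← Real.rpow_add hn0]
        congr 1
        ring
      have h7 : ((n : ℝ) ^ (1 / 2 : ℝ)) ^ 2 = n := by
        rw [← Real.rpow_natCast, ← Real.rpow_mul hn0.le]
        norm_num
      rw [h6, mul_pow, h7]
    calc Real.exp 1 ^ 2 * (C1 / n) * ∑ j ∈ Finset.range J, Real.exp (j * (2 * c))
        ≤ Real.exp 1 ^ 2 * (C1 / n) * ((Real.exp (C3 + 1) * (n : ℝ) ^ (2 * p - 1 / 2)) ^ 2 /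
          (p - 1 / 4)) := by
          refine mul_le_mul_of_nonneg_left (h1.trans ?_) (by positivity)
          exact div_le_div_of_nonneg_right h3 hp4.le
      _ = (D / Real.sqrt (p - 1 / 4) * (n : ℝ) ^ (2 * p - 1)) ^ 2 := by
          rw [hD, mul_pow (Real.exp (C3 + 1)), h5, mul_pow (_ / _), div_pow, hss,
            mul_pow (_ * _), mul_pow (Real.exp 1), hsC]
          field_simp
  have hM : ∫⁻ z in A, ENNReal.ofReal (Real.exp (L z).re ^ 2) ≤
      ENNReal.ofReal ((D / Real.sqrt (p - 1 / 4) * (n : ℝ) ^ (2 * p - 1)) ^ 2) := by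
    calc ∫⁻ z in A, ENNReal.ofReal (Real.exp (L z).re ^ 2) ≤
        ∫⁻ z in ⋃ j : Fin J, {z | z ∈ KQU.Om n ∧ ((j : ℕ) : ℝ) ≤ (L z).re ∧
          (L z).re < (j : ℕ) + 1}, ENNReal.ofReal (Real.exp (L z).re ^ 2) :=
          lintegral_mono_set hcov
      _ ≤ ∑ j ∈ Finset.range J,
          ENNReal.ofReal (Real.exp 1 ^ 2 * (C1 / n) * Real.exp (j * (2 * c))) := by
          refine (lintegral_iUnion_le _ _).trans ?_
          rw [tsum_fintype, Finset.sum_range]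
          exact Finset.sum_le_sum fun j _ => hlev (j : ℕ)
      _ = ENNReal.ofReal (∑ j ∈ Finset.range J,
            Real.exp 1 ^ 2 * (C1 / n) * Real.exp (j * (2 * c))) := by
          rw [ENNReal.ofReal_sum_of_nonneg fun j _ => by positivity]
      _ ≤ _ := ENNReal.ofReal_le_ofReal hreal
  have hV : ∫⁻ z in A, ENNReal.ofReal (E z ^ 2) ≤ ENNReal.ofReal W :=
    (lintegral_mono_set (fun z hz => hz.1)).trans hW
  refine (ec_cs A (fun z => Real.exp (L z).re) E hfm hE (fun z => (Real.exp_pos _).le) hE0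
    (by positivity) hW0 hM hV).trans (ENNReal.ofReal_le_ofReal (le_of_eq ?_))
  ring

end KQS
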