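import Pool.Agent.KQS.Nat1

set_option autoImplicit false

/-!
# KQS NAT2 : the natural part

Level `j`: `S_j = {z ∈ Om n, j ≤ U < j+1}`, `|S_j| ≤ (C/n) e^{-j/(2p)}` (`KQU.dist`, `bE ≥ 0`).
Hölder with exponents `3`, `3/2` (`ENNReal.lintegral_mul_le_Lp_mul_Lq`, one factor `1`):
`∫_{S_j} 1/|v - z| ≤ |S_j|^{1/3} (∫_Om |v-z|^{-3/2})^{2/3} ≤ C n^{-1/3} e^{-j/(6p)} n^{-1/3}`.
So `∫_{S_j} e^U/|v-z| ≤ C n^{-2/3} e^{j (1 - 1/(6p))}`, `1 - 1/(6p) ≥ 1/3`; sum over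
`j < J = ⌊2p log n + C⌋₊ + 1` (`KQU.top_level`; geometric series):
`≤ C n^{-2/3} e^{J (1 - 1/(6p))} ≤ C n^{-2/3} n^{2p - 1/3} = C n^{2p-1}`.
(Compare `KQU/Sv.lean`, `omega_int`.)
-/

open MeasureTheory Metric Set MPV

namespace KQS

private theorem hold {A : Set ℂ} {v : ℂ} {V W : ℝ} (hV : 0 ≤ V) (hW : 0 ≤ W)
    (h1 : volume A ≤ ENNReal.ofReal V)
    (h2 : ∫⁻ z in A, ENNReal.ofReal (‖v - z‖ ^ (-(3 / 2) : ℝ)) ≤ ENNReal.ofReal W) :
    ∫⁻ z in A, ENNReal.ofReal (1 / ‖v - z‖) ≤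
      ENNReal.ofReal (V ^ (1 / 3 : ℝ) * W ^ (2 / 3 : ℝ)) := by
  have hpq : (3 : ℝ).HolderConjugate (3 / 2) :=
    (Real.holderConjugate_iff_eq_conjExponent (by norm_num)).2 (by norm_num)
  have hm : Measurable fun z : ℂ => ENNReal.ofReal (1 / ‖v - z‖) := by fun_prop
  have h := ENNReal.lintegral_mul_le_Lp_mul_Lq (volume.restrict A) hpq
    (f := fun _ => 1) (g := fun z => ENNReal.ofReal (1 / ‖v - z‖)) aemeasurable_const
    hm.aemeasurable
  simp only [Pi.mul_apply, one_mul, ENNReal.one_rpow, lintegral_one,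
    Measure.restrict_apply_univ] at h
  refine h.trans ?_
  rw [ENNReal.ofReal_mul (by positivity)]
  refine mul_le_mul' ?_ ?_
  · rw [← ENNReal.ofReal_rpow_of_nonneg hV (by norm_num)]
    exact ENNReal.rpow_le_rpow h1 (by norm_num)
  · have h3 : (1 : ℝ) / (3 / 2) = 2 / 3 := by norm_num
    rw [h3, ← ENNReal.ofReal_rpow_of_nonneg hW (by norm_num)]
    refine ENNReal.rpow_le_rpow (le_trans (le_of_eq ?_) h2) (by norm_num)
    refine lintegral_congr fun z => ?_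
    rw [ENNReal.ofReal_rpow_of_nonneg (by positivity) (by norm_num)]
    congr 1
    rw [one_div, Real.inv_rpow (norm_nonneg _), Real.rpow_neg (norm_nonneg _)]

private theorem geo {c : ℝ} (hc : 1 / 3 ≤ c) (J : ℕ) :
    ∑ j ∈ Finset.range J, Real.exp (j * c) ≤ 3 * Real.exp (J * c) := by
  induction J with
  | zero => simp
  | succ J ih =>
    rw [Finset.sum_range_succ, Nat.cast_succ, add_mul, one_mul, Real.exp_add]
    have h1 : 4 / 3 ≤ Real.exp c := by linarith [Real.add_one_le_exp c]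
    have h2 : 0 < Real.exp (J * c) := Real.exp_pos _
    nlinarith

private theorem lev_real {C1 C2 n p j : ℝ} (hC1 : 0 < C1) (hC2 : 0 < C2) (hn : 0 < n)
    (hp : 0 < p) :
    Real.exp (j + 1) * ((C1 / n * Real.exp (-(j / (2 * p)))) ^ (1 / 3 : ℝ) *
      (C2 * n ^ (-(1 / 2) : ℝ)) ^ (2 / 3 : ℝ)) =
    Real.exp 1 * (C1 ^ (1 / 3 : ℝ) * C2 ^ (2 / 3 : ℝ)) * n ^ (-(2 / 3) : ℝ) *
      Real.exp (j * (1 - 1 / (6 * p))) := by
  have h1 : (C1 / n * Real.exp (-(j / (2 * p)))) ^ (1 / 3 : ℝ) =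
      C1 ^ (1 / 3 : ℝ) * n ^ (-(1 / 3) : ℝ) * Real.exp (-(j / (6 * p))) := by
    rw [Real.mul_rpow (by positivity) (by positivity), Real.div_rpow hC1.le hn.le,
      ← Real.exp_mul, Real.rpow_neg hn.le, div_eq_mul_inv]
    congr 2
    field_simp
    ring
  have h2 : (C2 * n ^ (-(1 / 2) : ℝ)) ^ (2 / 3 : ℝ) = C2 ^ (2 / 3 : ℝ) * n ^ (-(1 / 3) : ℝ) := by
    rw [Real.mul_rpow hC2.le (by positivity), ← Real.rpow_mul hn.le]
    congr 2
    norm_num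
  have h3 : n ^ (-(2 / 3) : ℝ) = n ^ (-(1 / 3) : ℝ) * n ^ (-(1 / 3) : ℝ) := by
    rw [← Real.rpow_add hn]
    congr 1
    norm_num
  have h4 : Real.exp (j * (1 - 1 / (6 * p))) = Real.exp j * Real.exp (-(j / (6 * p))) := by
    rw [← Real.exp_add]
    congr 1
    field_simp
    ring
  rw [h1, h2, h3, h4, Real.exp_add]
  ring

theorem nat_int : ∃ C : ℝ, 0 < C ∧ ∀ p : ℝ, 1 / 4 ≤ p → p ≤ 1 → ∀ L : ℂ → ℂ, Cls p L →
    (L 0).re = 0 → ∀ n : ℕ, 8 ≤ n → ∀ v : ℂ, ‖v‖ = 1 →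
      ∫⁻ z in {z | z ∈ KQU.Om n ∧ 0 ≤ (L z).re},
        ENNReal.ofReal (Real.exp (L z).re * (1 / ‖v - z‖)) ≤
        ENNReal.ofReal (C * (n : ℝ) ^ (2 * p - 1)) := by
  obtain ⟨C1, hC1, H1⟩ := KQU.dist
  obtain ⟨C2, hC2, H2⟩ := nat1
  obtain ⟨C3, hC3, H3⟩ := KQU.top_level
  set K : ℝ := Real.exp 1 * (C1 ^ (1 / 3 : ℝ) * C2 ^ (2 / 3 : ℝ)) with hK
  have hK0 : 0 < K := by positivity
  refine ⟨K * (3 * Real.exp (C3 + 1)), by positivity, fun p hp hp1 L hL hL0 n hn v hv => ?_⟩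
  have hp0 : 0 < p := by linarith
  have hn0 : (0 : ℝ) < n := by
    have : 0 < n := by omega
    exact_mod_cast this
  have hn1 : (1 : ℝ) ≤ n := by
    have : 1 ≤ n := by omega
    exact_mod_cast this
  set c : ℝ := 1 - 1 / (6 * p) with hc
  have hc1 : 1 / 3 ≤ c := by
    have h1 : 1 / (6 * p) ≤ 2 / 3 := by
      rw [div_le_div_iff₀ (by positivity) (by norm_num)]
      linarith
    rw [hc]
    linarith
  have hc2 : c ≤ 1 := by
    have : 0 ≤ 1 / (6 * p) := by positivity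
    rw [hc]
    linarith
  set G : ℂ → ENNReal := fun z => ENNReal.ofReal (Real.exp (L z).re * (1 / ‖v - z‖)) with hG
  have level : ∀ j : ℕ,
      ∫⁻ z in {z | z ∈ KQU.Om n ∧ (j : ℝ) ≤ (L z).re ∧ (L z).re < j + 1}, G z ≤
        ENNReal.ofReal (K * (n : ℝ) ^ (-(2 / 3) : ℝ) * Real.exp (j * c)) := by
    intro j
    set A : Set ℂ := {z | z ∈ KQU.Om n ∧ (j : ℝ) ≤ (L z).re ∧ (L z).re < j + 1} with hA
    have hj0 : (0 : ℝ) ≤ j := Nat.cast_nonneg j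
    have hvol : volume A ≤ ENNReal.ofReal (C1 / n * Real.exp (-((j : ℝ) / (2 * p)))) := by
      refine ((measure_mono ?_).trans (H1 p hp hp1 L hL hL0 n hn j hj0)).trans
        (ENNReal.ofReal_le_ofReal ?_)
      · intro z hz
        exact ⟨hz.1, hz.2.1⟩
      · have h1 := KQU.bE_nonneg L (1 - 2 / (n : ℝ)) j
        have h2 : (j : ℝ) / (2 * p) ≤ ((j : ℝ) + KQU.bE L (1 - 2 / (n : ℝ)) j / 200) / (2 * p) := by
          gcongr
          linarith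
        have h3 : Real.exp (-(((j : ℝ) + KQU.bE L (1 - 2 / (n : ℝ)) j / 200) / (2 * p))) ≤
            Real.exp (-((j : ℝ) / (2 * p))) := Real.exp_le_exp.2 (by linarith)
        exact mul_le_mul_of_nonneg_left h3 (by positivity)
    have hw : ∫⁻ z in A, ENNReal.ofReal (‖v - z‖ ^ (-(3 / 2) : ℝ)) ≤
        ENNReal.ofReal (C2 * (n : ℝ) ^ (-(1 / 2) : ℝ)) :=
      (lintegral_mono_set fun z hz => hz.1).trans (H2 n hn v hv)
    have hh := hold (by positivity) (by positivity) hvol hw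
    have hm : Measurable fun z : ℂ => ENNReal.ofReal (1 / ‖v - z‖) := by fun_prop
    calc ∫⁻ z in A, G z ≤ ∫⁻ z in A, ENNReal.ofReal (Real.exp ((j : ℝ) + 1)) *
          ENNReal.ofReal (1 / ‖v - z‖) := by
          refine setLIntegral_mono (hm.const_mul _) fun z hz => ?_
          rw [← ENNReal.ofReal_mul (Real.exp_pos _).le]
          exact ENNReal.ofReal_le_ofReal (mul_le_mul_of_nonneg_right
            (Real.exp_le_exp.2 hz.2.2.le) (by positivity))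
      _ ≤ ENNReal.ofReal (Real.exp ((j : ℝ) + 1)) *
          ENNReal.ofReal ((C1 / n * Real.exp (-((j : ℝ) / (2 * p)))) ^ (1 / 3 : ℝ) *
            (C2 * (n : ℝ) ^ (-(1 / 2) : ℝ)) ^ (2 / 3 : ℝ)) := by
          rw [lintegral_const_mul _ hm]
          exact mul_le_mul' le_rfl hh
      _ = _ := by
          rw [← ENNReal.ofReal_mul (Real.exp_pos _).le, lev_real hC1 hC2 hn0 hp0]
  set J : ℕ := ⌊2 * p * Real.log n + C3⌋₊ + 1 with hJ
  have hlog : 0 ≤ Real.log n := Real.log_nonneg hn1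
  have hcov : {z | z ∈ KQU.Om n ∧ 0 ≤ (L z).re} ⊆
      ⋃ j : Fin J, {z | z ∈ KQU.Om n ∧ ((j : ℕ) : ℝ) ≤ (L z).re ∧ (L z).re < (j : ℕ) + 1} := by
    rintro z ⟨hz, h0⟩
    refine mem_iUnion.2 ⟨⟨⌊(L z).re⌋₊, ?_⟩, hz, Nat.floor_le h0, Nat.lt_floor_add_one _⟩
    have h1 := Nat.floor_le_floor (H3 p hp hp1 L hL hL0 n hn z hz)
    omega
  have hJ1 : (J : ℝ) ≤ 2 * p * Real.log n + C3 + 1 := by
    have h1 := Nat.floor_le (show 0 ≤ 2 * p * Real.log n + C3 by positivity)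
    rw [hJ]
    push_cast
    linarith
  have hexp : Real.exp (J * c) ≤ Real.exp (C3 + 1) * (n : ℝ) ^ (2 * p - 1 / 3) := by
    rw [Real.rpow_def_of_pos hn0, ← Real.exp_add]
    refine Real.exp_le_exp.2 ?_
    have h1 : (J : ℝ) * c ≤ (2 * p * Real.log n + C3 + 1) * c :=
      mul_le_mul_of_nonneg_right hJ1 (by linarith)
    have h2 : 2 * p * Real.log n * c = Real.log n * (2 * p - 1 / 3) := by
      rw [hc]
      field_simp
      ring
    have h3 : (C3 + 1) * c ≤ C3 + 1 := by nlinarith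
    nlinarith
  have hq : (n : ℝ) ^ (-(2 / 3) : ℝ) * (n : ℝ) ^ (2 * p - 1 / 3) = (n : ℝ) ^ (2 * p - 1) := by
    rw [← Real.rpow_add hn0]
    congr 1
    ring
  have hreal : ∑ j ∈ Finset.range J, K * (n : ℝ) ^ (-(2 / 3) : ℝ) * Real.exp (j * c) ≤
      K * (3 * Real.exp (C3 + 1)) * (n : ℝ) ^ (2 * p - 1) := by
    rw [← Finset.mul_sum, ← hq]
    calc K * (n : ℝ) ^ (-(2 / 3) : ℝ) * ∑ j ∈ Finset.range J, Real.exp (j * c) ≤
          K * (n : ℝ) ^ (-(2 / 3) : ℝ) *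
            (3 * (Real.exp (C3 + 1) * (n : ℝ) ^ (2 * p - 1 / 3))) := by
          refine mul_le_mul_of_nonneg_left ((geo hc1 J).trans ?_) (by positivity)
          linarith
      _ = _ := by ring
  calc _ ≤ ∫⁻ z in ⋃ j : Fin J,
        {z | z ∈ KQU.Om n ∧ ((j : ℕ) : ℝ) ≤ (L z).re ∧ (L z).re < (j : ℕ) + 1}, G z :=
        lintegral_mono_set hcov
    _ ≤ ∑ j ∈ Finset.range J,
        ENNReal.ofReal (K * (n : ℝ) ^ (-(2 / 3) : ℝ) * Real.exp (j * c)) := by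
        refine (lintegral_iUnion_le _ _).trans ?_
        rw [tsum_fintype, Finset.sum_range]
        exact Finset.sum_le_sum fun j _ => level (j : ℕ)
    _ = ENNReal.ofReal (∑ j ∈ Finset.range J,
        K * (n : ℝ) ^ (-(2 / 3) : ℝ) * Real.exp (j * c)) := by
        rw [ENNReal.ofReal_sum_of_nonneg fun j _ => by positivity]
    _ ≤ _ := ENNReal.ofReal_le_ofReal hreal

end KQS
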