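import Pool.Agent.KQS.Defs

set_option autoImplicit false

/-!
# KQS TAIL : `∫_{Om n} E² → 0`

`volume (Om n) → 0` (`KQU.vol_Om`), `Om n ⊆ ball 0 1`, `tendsto_setLIntegral_zero` (for the measure
`volume.restrict (ball 0 1)` and the integrand `E²`).
-/

open MeasureTheory Metric Set MPV Filter Topology

namespace KQS

theorem tail {E : ℂ → ℝ} (hE : Measurable E)
    (hf : (∫⁻ z in ball (0 : ℂ) 1, ENNReal.ofReal (E z ^ 2)) ≠ ⊤) {W : ℝ} (hW : 0 < W) :
    ∀ᶠ n : ℕ in atTop, ∫⁻ z in KQU.Om n, ENNReal.ofReal (E z ^ 2) ≤ ENNReal.ofReal W := by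
  have hvol : Tendsto (fun n : ℕ => (volume.restrict (ball (0 : ℂ) 1)) (KQU.Om n)) atTop (𝓝 0) := by
    have h1 : Tendsto (fun n : ℕ => ENNReal.ofReal (2 * Real.pi / n)) atTop (𝓝 0) := by
      have h2 : Tendsto (fun n : ℕ => 2 * Real.pi / (n : ℝ)) atTop (𝓝 0) :=
        tendsto_const_nhds.div_atTop tendsto_natCast_atTop_atTop
      have h3 := ENNReal.tendsto_ofReal h2
      rwa [ENNReal.ofReal_zero] at h3
    refine tendsto_of_tendsto_of_tendsto_of_le_of_le' tendsto_const_nhds h1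
      (Eventually.of_forall fun n => zero_le) ?_
    filter_upwards [eventually_ge_atTop 8] with n hn
    exact (Measure.restrict_apply_le _ _).trans (KQU.vol_Om hn)
  have h4 := tendsto_setLIntegral_zero (μ := volume.restrict (ball (0 : ℂ) 1))
    (f := fun z => ENNReal.ofReal (E z ^ 2)) hf hvol
  have h5 : (0 : ENNReal) < ENNReal.ofReal W := ENNReal.ofReal_pos.2 hW
  filter_upwards [h4.eventually (gt_mem_nhds h5), eventually_ge_atTop 8] with n hn h8
  have h6 : (volume.restrict (ball (0 : ℂ) 1)).restrict (KQU.Om n) = volume.restrict (KQU.Om n) := by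
    rw [Measure.restrict_restrict (KQU.Ob.meas_Om n), inter_eq_left.2
      (fun z hz => KQU.Ob.Om_ball h8 hz)]
  rw [h6] at hn
  exact hn.le

end KQS
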