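import Pool.Agent.KQS.Defs

set_option autoImplicit false

/-!
# KQS ZERO : `KQU.omega_int` with an arbitrary top level `J`

The proof of `KQU/Sv.lean`, `omega_int`, with `⌊J⌋₊ + 1` in place of `⌊2p log n + C⌋₊ + 1`
(`KQU.level_int`, `KQU.zero_int`, `KQU.sum_real`; for `U < 0`: `zero_int`).
-/

open MeasureTheory Metric Set MPV

namespace KQS

theorem zero_case : ∃ C : ℝ, 0 < C ∧ ∀ p : ℝ, 1 / 4 < p → p ≤ 1 → ∀ L : ℂ → ℂ, Cls p L →
    (L 0).re = 0 → ∀ n : ℕ, 8 ≤ n → ∀ J : ℝ, 0 ≤ J → (∀ z ∈ KQU.Om n, (L z).re ≤ J) →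
      ∫⁻ z in KQU.Om n, ENNReal.ofReal (Real.exp (L z).re * ‖deriv L z‖) ≤
        ENNReal.ofReal (C / Real.sqrt n + C / Real.sqrt (p - 1 / 4) / Real.sqrt n *
          Real.exp (J * (1 - 1 / (4 * p)))) := by
  obtain ⟨C1, hC1, H1⟩ := KQU.level_int
  obtain ⟨C2, hC2, H2⟩ := KQU.zero_int
  obtain ⟨C4, hC4, H4⟩ := KQU.sum_real
  refine ⟨C2 + C1 * C4 * Real.exp 1, by positivity,
    fun p hp hp1 L hL hL0 n hn J hJ0 HJ => ?_⟩
  have hp0 : 0 < p := by linarith
  have hn0 : (0 : ℝ) < n := by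
    have : 0 < n := by omega
    exact_mod_cast this
  set r : ℝ := 1 - 2 / (n : ℝ) with hr
  set b : ℕ → ℝ := fun j => (KQU.en L r j (j + 1)).toReal with hb
  set c : ℝ := 1 - 1 / (4 * p) with hc
  set G : ℂ → ENNReal := fun z => ENNReal.ofReal (Real.exp (L z).re * ‖deriv L z‖) with hG
  set N : ℕ := ⌊J⌋₊ + 1 with hN
  have hcov : KQU.Om n ⊆ {z | z ∈ KQU.Om n ∧ (L z).re < 0} ∪
      ⋃ j : Fin N, {z | z ∈ KQU.Om n ∧ ((j : ℕ) : ℝ) ≤ (L z).re ∧ (L z).re < (j : ℕ) + 1} := by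
    intro z hz
    rcases lt_or_ge (L z).re 0 with h0 | h0
    · exact Or.inl ⟨hz, h0⟩
    · refine Or.inr (mem_iUnion.2 ⟨⟨⌊(L z).re⌋₊, ?_⟩, hz, Nat.floor_le h0, Nat.lt_floor_add_one _⟩)
      have h1 := Nat.floor_le_floor (HJ z hz)
      omega
  have hsum : ∑ j ∈ Finset.range N, Real.exp (j * c) * Real.sqrt (b j) *
      Real.exp (-KQU.bE L r j / (800 * p)) ≤ C4 / Real.sqrt (p - 1 / 4) * Real.exp (N * c) := by
    have h1 := H4 p hp hp1 b (fun j => ENNReal.toReal_nonneg)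
      (fun j => KQU.b_le hp0 hp1 hL r j) N
    refine le_trans (le_of_eq (Finset.sum_congr rfl fun j _ => ?_)) h1
    rw [hb, KQU.sum_bE hp0 hp1 hL r j]
  have hcpos : 0 ≤ c := by
    rw [hc, sub_nonneg, div_le_one (by positivity)]
    linarith
  have hc1 : c ≤ 1 := by
    have : 0 ≤ 1 / (4 * p) := by positivity
    rw [hc]
    linarith
  have hN1 : (N : ℝ) ≤ J + 1 := by
    have h1 := Nat.floor_le hJ0
    rw [hN]
    push_cast
    linarith
  have hexp : Real.exp (N * c) ≤ Real.exp 1 * Real.exp (J * c) := by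
    rw [← Real.exp_add]
    refine Real.exp_le_exp.2 ?_
    have h1 : (N : ℝ) * c ≤ (J + 1) * c := mul_le_mul_of_nonneg_right hN1 hcpos
    nlinarith
  have hs0 : 0 < Real.sqrt (p - 1 / 4) := Real.sqrt_pos.2 (by linarith)
  have hsn0 : 0 < Real.sqrt n := Real.sqrt_pos.2 hn0
  have hreal : C2 / Real.sqrt n + ∑ j ∈ Finset.range N, C1 / Real.sqrt n *
      (Real.exp (j * c) * Real.sqrt (b j) * Real.exp (-KQU.bE L r j / (800 * p))) ≤
      (C2 + C1 * C4 * Real.exp 1) / Real.sqrt n +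
        (C2 + C1 * C4 * Real.exp 1) / Real.sqrt (p - 1 / 4) / Real.sqrt n *
          Real.exp (J * c) := by
    rw [← Finset.mul_sum]
    have h1 : C1 / Real.sqrt n * ∑ j ∈ Finset.range N, Real.exp (j * c) * Real.sqrt (b j) *
        Real.exp (-KQU.bE L r j / (800 * p)) ≤
        C1 / Real.sqrt n * (C4 / Real.sqrt (p - 1 / 4) * (Real.exp 1 * Real.exp (J * c))) := by
      refine mul_le_mul_of_nonneg_left (hsum.trans ?_) (by positivity)
      exact mul_le_mul_of_nonneg_left hexp (by positivity)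
    have h2 : C1 / Real.sqrt n * (C4 / Real.sqrt (p - 1 / 4) * (Real.exp 1 * Real.exp (J * c))) =
        C1 * C4 * Real.exp 1 / Real.sqrt (p - 1 / 4) / Real.sqrt n * Real.exp (J * c) := by
      field_simp
    have h3 : C2 / Real.sqrt n ≤ (C2 + C1 * C4 * Real.exp 1) / Real.sqrt n := by
      gcongr
      have : 0 < C1 * C4 * Real.exp 1 := by positivity
      linarith
    have h4 : C1 * C4 * Real.exp 1 / Real.sqrt (p - 1 / 4) / Real.sqrt n * Real.exp (J * c) ≤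
        (C2 + C1 * C4 * Real.exp 1) / Real.sqrt (p - 1 / 4) / Real.sqrt n *
          Real.exp (J * c) := by
      gcongr
      linarith
    exact add_le_add h3 (h1.trans (h2.le.trans h4))
  calc ∫⁻ z in KQU.Om n, G z ≤ ∫⁻ z in {z | z ∈ KQU.Om n ∧ (L z).re < 0} ∪
      ⋃ j : Fin N, {z | z ∈ KQU.Om n ∧ ((j : ℕ) : ℝ) ≤ (L z).re ∧ (L z).re < (j : ℕ) + 1}, G z :=
        lintegral_mono_set hcov
    _ ≤ (∫⁻ z in {z | z ∈ KQU.Om n ∧ (L z).re < 0}, G z) +
        ∫⁻ z in ⋃ j : Fin N, {z | z ∈ KQU.Om n ∧ ((j : ℕ) : ℝ) ≤ (L z).re ∧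
          (L z).re < (j : ℕ) + 1}, G z := lintegral_union_le _ _ _
    _ ≤ ENNReal.ofReal (C2 / Real.sqrt n) + ∑ j ∈ Finset.range N,
        ENNReal.ofReal (C1 / Real.sqrt n *
          (Real.exp (j * c) * Real.sqrt (b j) * Real.exp (-KQU.bE L r j / (800 * p)))) := by
        refine add_le_add (H2 p hp0 hp1 L hL n hn) ?_
        refine (lintegral_iUnion_le _ _).trans ?_
        rw [tsum_fintype, Finset.sum_range]
        exact Finset.sum_le_sum fun j _ => H1 p hp hp1 L hL hL0 n hn (j : ℕ)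
    _ = ENNReal.ofReal (C2 / Real.sqrt n + ∑ j ∈ Finset.range N, C1 / Real.sqrt n *
          (Real.exp (j * c) * Real.sqrt (b j) * Real.exp (-KQU.bE L r j / (800 * p)))) := by
        rw [ENNReal.ofReal_add (by positivity) (Finset.sum_nonneg fun j _ => by positivity),
          ENNReal.ofReal_sum_of_nonneg fun j _ => by positivity]
    _ ≤ _ := ENNReal.ofReal_le_ofReal hreal

end KQS
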