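import Pool.Agent.KQS.Reg
import Pool.Agent.KQS.Nat2
import Pool.Agent.KQS.Exc
import Pool.Agent.KQS.Zero
import Pool.Agent.KQS.Tail

set_option autoImplicit false

/-!
# KQS ASM : for a fixed `L`, `∫_Om e^U |L'| ≤ C n^(2p-1)` for large `n`, `C` absolute

`C₀` from `zero_case`.  Choose `D = D(p)` with `C₀ (p-1/4)^(-1/2) e^{-α(D - 2p log 2)} ≤ 1`,
`α = 1 - 1/(4p)`.
* `Big p D L`: `reg`; `U < 0` part by `KQU.zero_int`; `U ≥ 0`: `e^U |L'| ≤ 400 e^U/|v-z| + 400 e^U E`,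
  `nat_int`, `exc_int` with `W` so small that `C (p-1/4)^(-1/2) √W ≤ 1` (`tail`).
* not `Big`: some `N` with `U z < 2p TT z - D` whenever `TT z ≥ N`; on `Om n`
  `log n ≤ TT z ≤ log (2n)`, so `U ≤ 2p log (2n) - D =: J` for large `n` (`J ≥ 0` for large `n`);
  `zero_case`: `n^{-1/2} e^{αJ} = n^{2p-1} e^{-α(D - 2p log 2)}`; `n^{-1/2} ≤ n^{2p-1}`.
-/

open MeasureTheory Metric Set MPV Filter Topology

namespace KQS

private theorem Om_ball' {n : ℕ} (hn : 8 ≤ n) : KQU.Om n ⊆ ball (0 : ℂ) 1 :=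
  fun _ hz => KQU.Ob.Om_ball hn hz

private theorem meas_pos {p : ℝ} {L : ℂ → ℂ} (h : Cls p L) {n : ℕ} (hn : 8 ≤ n) :
    MeasurableSet {z | z ∈ KQU.Om n ∧ 0 ≤ (L z).re} := by
  have hcont : ContinuousOn (fun z => (L z).re) (ball (0 : ℂ) 1) :=
    Complex.continuous_re.comp_continuousOn h.diff.continuousOn
  have hopen : IsOpen (ball (0 : ℂ) 1 ∩ (fun z => (L z).re) ⁻¹' Iio 0) :=
    hcont.isOpen_inter_preimage isOpen_ball isOpen_Iio
  have e : {z | z ∈ KQU.Om n ∧ 0 ≤ (L z).re} =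
      KQU.Om n \ (ball (0 : ℂ) 1 ∩ (fun z => (L z).re) ⁻¹' Iio 0) := by
    ext z
    simp only [mem_ofPred_eq, Set.mem_sdiff, mem_inter_iff, mem_preimage, mem_Iio, not_and, not_lt]
    constructor
    · rintro ⟨h1, h2⟩
      exact ⟨h1, fun _ => h2⟩
    · rintro ⟨h1, h2⟩
      exact ⟨h1, h2 (Om_ball' hn h1)⟩
  rw [e]
  exact (KQU.Ob.meas_Om n).diff hopen.measurableSet

private theorem neg_half_le {p : ℝ} (hp : 1 / 4 < p) {n : ℕ} (hn : 8 ≤ n) :
    1 / Real.sqrt n ≤ (n : ℝ) ^ (2 * p - 1) := by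
  have hn1 : (1 : ℝ) ≤ n := by
    have : (8 : ℝ) ≤ n := by exact_mod_cast hn
    linarith
  have hn0 : (0 : ℝ) < n := by linarith
  have e : 1 / Real.sqrt n = (n : ℝ) ^ (-(1 / 2) : ℝ) := by
    rw [Real.sqrt_eq_rpow, Real.rpow_neg hn0.le, one_div]
  rw [e]
  exact Real.rpow_le_rpow_of_exponent_le hn1 (by linarith)

/-- the regular case -/
private theorem big_case {C1 C2 C3 : ℝ} (hC1 : 0 < C1) (hC2 : 0 < C2) (hC3 : 0 < C3)
    (H1 : ∀ p : ℝ, 1 / 4 ≤ p → p ≤ 1 → ∀ L : ℂ → ℂ, Cls p L →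
      (L 0).re = 0 → ∀ n : ℕ, 8 ≤ n → ∀ v : ℂ, ‖v‖ = 1 →
      ∫⁻ z in {z | z ∈ KQU.Om n ∧ 0 ≤ (L z).re},
        ENNReal.ofReal (Real.exp (L z).re * (1 / ‖v - z‖)) ≤
        ENNReal.ofReal (C1 * (n : ℝ) ^ (2 * p - 1)))
    (H2 : ∀ p : ℝ, 1 / 4 < p → p ≤ 1 → ∀ L : ℂ → ℂ, Cls p L →
      (L 0).re = 0 → ∀ n : ℕ, 8 ≤ n → ∀ E : ℂ → ℝ, Measurable E → (∀ z, 0 ≤ E z) →
      ∀ W : ℝ, 0 ≤ W → ∫⁻ z in KQU.Om n, ENNReal.ofReal (E z ^ 2) ≤ ENNReal.ofReal W →
      ∫⁻ z in {z | z ∈ KQU.Om n ∧ 0 ≤ (L z).re},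
        ENNReal.ofReal (Real.exp (L z).re * E z) ≤
        ENNReal.ofReal (C2 / Real.sqrt (p - 1 / 4) * Real.sqrt W * (n : ℝ) ^ (2 * p - 1)))
    (H3 : ∀ p : ℝ, 0 < p → p ≤ 1 → ∀ L : ℂ → ℂ, Cls p L → ∀ n : ℕ, 8 ≤ n →
      ∫⁻ z in {z | z ∈ KQU.Om n ∧ (L z).re < 0},
        ENNReal.ofReal (Real.exp (L z).re * ‖deriv L z‖) ≤ ENNReal.ofReal (C3 / Real.sqrt n))
    {p : ℝ} (hp : 1 / 4 < p) (hp1 : p ≤ 1) {L : ℂ → ℂ} (hL : Cls p L) (hL0 : (L 0).re = 0)
    {v : ℂ} (hv : ‖v‖ = 1) {E : ℂ → ℝ} (hEm : Measurable E) (hE0 : ∀ z, 0 ≤ E z)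
    (hE : ∀ z ∈ ball (0 : ℂ) 1, 0 ≤ (L z).re → ‖deriv L z‖ ≤ 400 * (1 / ‖v - z‖ + E z))
    {n : ℕ} (hn : 8 ≤ n)
    (hW : ∫⁻ z in KQU.Om n, ENNReal.ofReal (E z ^ 2) ≤ ENNReal.ofReal ((p - 1 / 4) / C2 ^ 2)) :
    ∫⁻ z in KQU.Om n, ENNReal.ofReal (Real.exp (L z).re * ‖deriv L z‖) ≤
        ENNReal.ofReal ((C3 + 400 * C1 + 400) * (n : ℝ) ^ (2 * p - 1)) := by
  have hs : 0 < p - 1 / 4 := by linarith
  have hsq : 0 < Real.sqrt (p - 1 / 4) := Real.sqrt_pos.2 hs
  have hn0 : (0 : ℝ) < n := by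
    have : (8 : ℝ) ≤ n := by exact_mod_cast hn
    linarith
  have hP : 0 < (n : ℝ) ^ (2 * p - 1) := Real.rpow_pos_of_pos hn0 _
  set S : Set ℂ := {z | z ∈ KQU.Om n ∧ 0 ≤ (L z).re} with hS
  have hSm : MeasurableSet S := meas_pos hL hn
  have hSb : S ⊆ ball (0 : ℂ) 1 := fun z hz => Om_ball' hn hz.1
  have h1 := H1 p hp.le hp1 L hL hL0 n hn v hv
  have h2 := H2 p hp hp1 L hL hL0 n hn E hEm hE0 _ (by positivity) hW
  have h3 := H3 p (by linarith) hp1 L hL n hn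
  have e2 : C2 / Real.sqrt (p - 1 / 4) * Real.sqrt ((p - 1 / 4) / C2 ^ 2) *
      (n : ℝ) ^ (2 * p - 1) = (n : ℝ) ^ (2 * p - 1) := by
    rw [Real.sqrt_div hs.le, Real.sqrt_sq hC2.le, div_mul_div_comm, mul_comm C2,
      div_self (mul_pos hsq hC2).ne', one_mul]
  rw [e2] at h2
  have hU : AEMeasurable (fun z => (L z).re) (volume.restrict S) :=
    (Complex.continuous_re.comp_continuousOn (hL.diff.continuousOn.mono hSb)).aemeasurable hSm
  have hm1 : AEMeasurable (fun z => ENNReal.ofReal (400 * (Real.exp (L z).re * (1 / ‖v - z‖))))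
      (volume.restrict S) := by
    have h4 : Measurable fun z : ℂ => 1 / ‖v - z‖ := by fun_prop
    exact ((hU.exp.mul h4.aemeasurable).const_mul 400).ennreal_ofReal
  have hpos : ∫⁻ z in S, ENNReal.ofReal (Real.exp (L z).re * ‖deriv L z‖) ≤
      ENNReal.ofReal (400 * (C1 * (n : ℝ) ^ (2 * p - 1))) +
        ENNReal.ofReal (400 * (n : ℝ) ^ (2 * p - 1)) := by
    calc ∫⁻ z in S, ENNReal.ofReal (Real.exp (L z).re * ‖deriv L z‖) ≤
        ∫⁻ z in S, (ENNReal.ofReal (400 * (Real.exp (L z).re * (1 / ‖v - z‖))) +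
          ENNReal.ofReal (400 * (Real.exp (L z).re * E z))) := by
          refine setLIntegral_mono' hSm fun z hz => ?_
          have hE0z := hE0 z
          rw [← ENNReal.ofReal_add (by positivity) (by positivity)]
          apply ENNReal.ofReal_le_ofReal
          have h5 := hE z (hSb hz) hz.2
          have h6 := mul_le_mul_of_nonneg_left h5 (Real.exp_pos (L z).re).le
          linarith
      _ = (∫⁻ z in S, ENNReal.ofReal (400 * (Real.exp (L z).re * (1 / ‖v - z‖)))) +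
          ∫⁻ z in S, ENNReal.ofReal (400 * (Real.exp (L z).re * E z)) :=
          lintegral_add_left' hm1 _
      _ = ENNReal.ofReal 400 * (∫⁻ z in S, ENNReal.ofReal (Real.exp (L z).re * (1 / ‖v - z‖))) +
          ENNReal.ofReal 400 * ∫⁻ z in S, ENNReal.ofReal (Real.exp (L z).re * E z) := by
          rw [← lintegral_const_mul' _ _ ENNReal.ofReal_ne_top,
            ← lintegral_const_mul' _ _ ENNReal.ofReal_ne_top]
          congr 1 <;> refine lintegral_congr fun z => ?_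
          · rw [ENNReal.ofReal_mul (by norm_num)]
          · rw [ENNReal.ofReal_mul (by norm_num)]
      _ ≤ ENNReal.ofReal 400 * ENNReal.ofReal (C1 * (n : ℝ) ^ (2 * p - 1)) +
          ENNReal.ofReal 400 * ENNReal.ofReal ((n : ℝ) ^ (2 * p - 1)) := by gcongr
      _ = _ := by
          rw [← ENNReal.ofReal_mul (by norm_num), ← ENNReal.ofReal_mul (by norm_num)]
  have hsub : KQU.Om n ⊆ {z | z ∈ KQU.Om n ∧ (L z).re < 0} ∪ S := by
    intro z hz
    rcases lt_or_ge (L z).re 0 with h7 | h7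
    · exact Or.inl ⟨hz, h7⟩
    · exact Or.inr ⟨hz, h7⟩
  have h8 := neg_half_le hp hn
  calc _ ≤ ∫⁻ z in {z | z ∈ KQU.Om n ∧ (L z).re < 0} ∪ S,
        ENNReal.ofReal (Real.exp (L z).re * ‖deriv L z‖) := lintegral_mono_set hsub
    _ ≤ _ := lintegral_union_le _ _ _
    _ ≤ ENNReal.ofReal (C3 / Real.sqrt n) +
        (ENNReal.ofReal (400 * (C1 * (n : ℝ) ^ (2 * p - 1))) +
        ENNReal.ofReal (400 * (n : ℝ) ^ (2 * p - 1))) := add_le_add h3 hpos
    _ ≤ _ := by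
        rw [← ENNReal.ofReal_add (by positivity) (by positivity),
          ← ENNReal.ofReal_add (by positivity) (by positivity)]
        apply ENNReal.ofReal_le_ofReal
        have h9 : C3 / Real.sqrt n ≤ C3 * (n : ℝ) ^ (2 * p - 1) := by
          rw [div_eq_mul_one_div]
          gcongr
        linarith

theorem asm : ∃ C : ℝ, 0 < C ∧ ∀ p : ℝ, 1 / 4 < p → p ≤ 1 → ∀ L : ℂ → ℂ, Cls p L →
    (L 0).re = 0 → ∀ᶠ n : ℕ in atTop,
      ∫⁻ z in KQU.Om n, ENNReal.ofReal (Real.exp (L z).re * ‖deriv L z‖) ≤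
        ENNReal.ofReal (C * (n : ℝ) ^ (2 * p - 1)) := by
  obtain ⟨C0, hC0, H0⟩ := zero_case
  obtain ⟨C1, hC1, H1⟩ := nat_int
  obtain ⟨C2, hC2, H2⟩ := exc_int
  obtain ⟨C3, hC3, H3⟩ := KQU.zero_int
  refine ⟨(C3 + 400 * C1 + 400) + (C0 + 1), by positivity, ?_⟩
  intro p hp hp1 L hL hL0
  have hp0 : 0 < p := by linarith
  have hs : 0 < p - 1 / 4 := by linarith
  have hsq : 0 < Real.sqrt (p - 1 / 4) := Real.sqrt_pos.2 hs
  have hα : 0 < 1 - 1 / (4 * p) := by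
    have : 1 / (4 * p) < 1 := by
      rw [div_lt_one (by positivity)]
      linarith
    linarith
  set α := 1 - 1 / (4 * p) with hαd
  set q := C0 / Real.sqrt (p - 1 / 4) with hq
  have hq0 : 0 < q := by positivity
  set D := 2 * p * Real.log 2 + Real.log (q + 1) / α with hD
  have hDe : q * Real.exp (-(α * (D - 2 * p * Real.log 2))) ≤ 1 := by
    have e1 : α * (D - 2 * p * Real.log 2) = Real.log (q + 1) := by
      rw [hD]
      field_simp
      ring
    rw [e1, Real.exp_neg, Real.exp_log (by linarith)]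
    rw [mul_inv_le_iff₀ (by linarith)]
    linarith
  by_cases hB : Big p D L
  · obtain ⟨v, hv, E, hEm, hE0, hEf, hE⟩ := reg hp0 hp1 hL hL0 hB
    have hW : 0 < (p - 1 / 4) / C2 ^ 2 := by positivity
    filter_upwards [tail hEm hEf hW, eventually_ge_atTop 8] with n hn h8
    refine (big_case hC1 hC2 hC3 H1 H2 H3 hp hp1 hL hL0 hv hEm hE0 hE h8 hn).trans
      (ENNReal.ofReal_le_ofReal ?_)
    have hn0 : (0 : ℝ) < n := by
      have : (8 : ℝ) ≤ n := by exact_mod_cast h8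
      linarith
    have hP : 0 < (n : ℝ) ^ (2 * p - 1) := Real.rpow_pos_of_pos hn0 _
    have : 0 ≤ (C0 + 1) * (n : ℝ) ^ (2 * p - 1) := by positivity
    linarith
  · unfold Big at hB
    push Not at hB
    obtain ⟨N, hN⟩ := hB
    have hlog : Tendsto (fun n : ℕ => Real.log n) atTop atTop :=
      Real.tendsto_log_atTop.comp tendsto_natCast_atTop_atTop
    filter_upwards [hlog.eventually_ge_atTop (N + Real.log 2), hlog.eventually_ge_atTop (D / (2 * p)),
      eventually_ge_atTop 8] with n hn1 hn2 h8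
    have hn8 : (8 : ℝ) ≤ n := by exact_mod_cast h8
    have hn0 : (0 : ℝ) < n := by linarith
    have hl2 : 0 < Real.log 2 := Real.log_pos (by norm_num)
    set J := 2 * p * Real.log (2 * n) - D with hJ
    have hl2n : Real.log (2 * (n : ℝ)) = Real.log 2 + Real.log n :=
      Real.log_mul (by norm_num) hn0.ne'
    have hJ0 : 0 ≤ J := by
      rw [hJ, hl2n]
      rw [div_le_iff₀ (by positivity)] at hn2
      have : 0 ≤ 2 * p * Real.log 2 := by positivity
      linarith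
    have htop : ∀ z ∈ KQU.Om n, (L z).re ≤ J := by
      intro z hz
      have hz1 : ‖z‖ < 1 := mem_ball_zero_iff.1 (Om_ball' h8 hz)
      have hz0 := norm_nonneg z
      have h10 : (0 : ℝ) < 1 - ‖z‖ := by linarith
      have hlow : (n : ℝ) / 2 ≤ (1 + ‖z‖) / (1 - ‖z‖) := by
        rw [le_div_iff₀ h10]
        have h11 := hz.1
        have h12 : 1 - ‖z‖ < 2 / n := by linarith
        have h13 : (n : ℝ) / 2 * (1 - ‖z‖) ≤ (n : ℝ) / 2 * (2 / n) := by gcongr
        have h14 : (n : ℝ) / 2 * (2 / n) = 1 := by field_simp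
        linarith
      have hhigh : (1 + ‖z‖) / (1 - ‖z‖) ≤ 2 * n := by
        rw [div_le_iff₀ h10]
        have h11 := hz.2
        have h12 : 1 / (n : ℝ) < 1 - ‖z‖ := by linarith
        have h13 : 2 * (n : ℝ) * (1 / n) ≤ 2 * (n : ℝ) * (1 - ‖z‖) := by gcongr
        have h14 : 2 * (n : ℝ) * (1 / n) = 2 := by field_simp
        linarith
      have hT1 : N ≤ TT z := by
        unfold TT
        have h15 : Real.log ((n : ℝ) / 2) ≤ Real.log ((1 + ‖z‖) / (1 - ‖z‖)) :=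
          Real.log_le_log (by positivity) hlow
        rw [Real.log_div hn0.ne' (by norm_num)] at h15
        linarith
      have hT2 : TT z ≤ Real.log (2 * n) := by
        unfold TT
        exact Real.log_le_log (by positivity) hhigh
      have h16 := hN z hz1 hT1
      have h17 : 2 * p * TT z ≤ 2 * p * Real.log (2 * n) := by gcongr
      linarith
    refine (H0 p hp hp1 L hL hL0 n h8 J hJ0 htop).trans (ENNReal.ofReal_le_ofReal ?_)
    have hsn : 0 < Real.sqrt n := Real.sqrt_pos.2 hn0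
    have hP : 0 < (n : ℝ) ^ (2 * p - 1) := Real.rpow_pos_of_pos hn0 _
    have hexp : Real.exp (J * α) = Real.exp (-(α * (D - 2 * p * Real.log 2))) *
        ((n : ℝ) ^ (2 * p - 1) * Real.sqrt n) := by
      have e1 : (n : ℝ) ^ (2 * p - 1) * Real.sqrt n = Real.exp (Real.log n * (2 * p - 1 / 2)) := by
        rw [Real.sqrt_eq_rpow, ← Real.rpow_add hn0, Real.rpow_def_of_pos hn0]
        congr 1
        ring
      rw [e1, ← Real.exp_add]
      congr 1
      rw [hJ, hl2n]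
      have e2 : 2 * p * α = 2 * p - 1 / 2 := by
        rw [hαd]
        field_simp
        ring
      have e3 : (2 * p * (Real.log 2 + Real.log n) - D) * α =
          -(α * (D - 2 * p * Real.log 2)) + Real.log n * (2 * p * α) := by ring
      rw [e3, e2]
    have h18 : q / Real.sqrt n * Real.exp (J * α) ≤ (n : ℝ) ^ (2 * p - 1) := by
      rw [hexp]
      have e4 : q / Real.sqrt n * (Real.exp (-(α * (D - 2 * p * Real.log 2))) *
          ((n : ℝ) ^ (2 * p - 1) * Real.sqrt n)) =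
          (q * Real.exp (-(α * (D - 2 * p * Real.log 2)))) * (n : ℝ) ^ (2 * p - 1) := by
        field_simp
      rw [e4]
      have := mul_le_mul_of_nonneg_right hDe hP.le
      linarith
    have h19 : C0 / Real.sqrt n ≤ C0 * (n : ℝ) ^ (2 * p - 1) := by
      rw [div_eq_mul_one_div]
      have := neg_half_le hp h8
      gcongr
    have h20 : 0 ≤ (C3 + 400 * C1 + 400) * (n : ℝ) ^ (2 * p - 1) := by positivity
    have h21 : q / Real.sqrt n * Real.exp (J * α) =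
      C0 / Real.sqrt (p - 1 / 4) / Real.sqrt n * Real.exp (J * (1 - 1 / (4 * p))) := rfl
    linarith

end KQS
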