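import Pool.Agent.KQU.Sv
import Pool.Agent.MQV.Grw

set_option autoImplicit false

/-!
# KQS : for a FIXED `f ∈ S(p)`, `|a_n| ≤ C n^(2p-1)` for large `n` with an ABSOLUTE `C` (1/4 < p < 1)

Together with `A_n^{(p)} ≥ c (p-1/4)^(-1/2) n^(2p-1)`: near `p = 1/4` the limit `K_p` is far larger
than `sup_f lim |a_n| n^(1-2p)`.

`TT z = log ((1+|z|)/(1-|z|))`; `Fs L v ζ = f(v th ζ)/9`, `f = exp ∘ L` (strip coordinates);
`gs L v = Fs' conj(Fs) / (1 + |Fs|²)` (the limit `b → ∞` of `MQV.dv (Fs L v) 1 b`).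
-/

open MeasureTheory Metric Set MPV

namespace KQS

/-- `log ((1+|z|)/(1-|z|))` -/
noncomputable def TT (z : ℂ) : ℝ := Real.log ((1 + ‖z‖) / (1 - ‖z‖))

/-- `f/9` in strip coordinates -/
noncomputable def Fs (L : ℂ → ℂ) (v ζ : ℂ) : ℂ := Complex.exp (L (v * MQV.th ζ)) / 9

/-- the limit of `MQV.dv (Fs L v) 1 b` as `b → ∞` -/
noncomputable def gs (L : ℂ → ℂ) (v ζ : ℂ) : ℂ :=
  deriv (Fs L v) ζ * (starRingEnd ℂ) (Fs L v ζ) * ((1 / (1 + ‖Fs L v ζ‖ ^ 2) : ℝ) : ℂ)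

/-- `f` is of maximal growth along a sequence, up to `exp (-D)` -/
def Big (p D : ℝ) (L : ℂ → ℂ) : Prop :=
  ∀ N : ℝ, ∃ z : ℂ, ‖z‖ < 1 ∧ N ≤ TT z ∧ 2 * p * TT z - D ≤ (L z).re

end KQS
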