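import Pool.Agent.KQS.Pair

set_option autoImplicit false

/-!
# KQS FAT : Fatou
-/

open MeasureTheory Metric Set MPV

namespace KQS

private theorem fat_gen {S : Set ℂ} (hS : MeasurableSet S) (hSS : S ⊆ MQV.Str)
    {G : ℕ → ℂ → ENNReal} (hG : ∀ k, ContinuousOn (G k) MQV.Str) {g : ℂ → ENNReal}
    (hlim : ∀ ζ ∈ MQV.Str, Filter.Tendsto (fun k => G k ζ) Filter.atTop (nhds (g ζ)))
    {T : ℕ → ℝ} (hT : Filter.Tendsto T Filter.atTop Filter.atTop) {K : ENNReal}
    (hK : ∀ k, ∫⁻ ζ in {ζ | ζ ∈ S ∧ ζ.re < T k}, G k ζ ≤ K) : ∫⁻ ζ in S, g ζ ≤ K := by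
  have hm : ∀ k, MeasurableSet {ζ : ℂ | ζ.re < T k} := fun k =>
    measurableSet_lt Complex.measurable_re measurable_const
  set H : ℕ → ℂ → ENNReal := fun k => {ζ : ℂ | ζ.re < T k}.indicator (G k) with hH
  have hHm : ∀ k, AEMeasurable (H k) (volume.restrict S) := fun k =>
    (((hG k).mono hSS).aemeasurable hS).indicator (hm k)
  have h1 : ∀ ζ ∈ S, g ζ = Filter.liminf (fun k => H k ζ) Filter.atTop := by
    intro ζ hζ
    refine (Filter.Tendsto.liminf_eq ?_).symm
    refine (hlim ζ (hSS hζ)).congr' ?_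
    filter_upwards [hT.eventually_gt_atTop ζ.re] with k hk
    rw [hH]
    exact (indicator_of_mem (show ζ ∈ {ζ : ℂ | ζ.re < T k} from hk) _).symm
  calc ∫⁻ ζ in S, g ζ = ∫⁻ ζ in S, Filter.liminf (fun k => H k ζ) Filter.atTop :=
        setLIntegral_congr_fun hS h1
    _ ≤ Filter.liminf (fun k => ∫⁻ ζ in S, H k ζ) Filter.atTop := lintegral_liminf_le' hHm
    _ ≤ K := by
        apply Filter.liminf_le_of_frequently_le'
        apply Filter.Frequently.of_forall
        intro k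
        rw [hH, lintegral_indicator (hm k), Measure.restrict_restrict (hm k)]
        refine le_trans (le_of_eq ?_) (hK k)
        congr 2
        ext ζ
        exact and_comm

private theorem fat_Fs {p : ℝ} {L : ℂ → ℂ} (h : Cls p L) {v ζ : ℂ} (hv : ‖v‖ = 1)
    (hζ : ζ ∈ MQV.Str) : HasDerivAt (Fs L v)
      (Complex.exp (L (v * MQV.th ζ)) * (deriv L (v * MQV.th ζ) *
        (v * (2 * Complex.exp ζ / (Complex.exp ζ + 1) ^ 2))) / 9) ζ := by
  have hb : v * MQV.th ζ ∈ ball (0 : ℂ) 1 := by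
    have := MQV.th_mapsTo hζ
    rw [mem_ball_zero_iff] at this ⊢
    rw [norm_mul, hv, one_mul]
    exact this
  have h1 : HasDerivAt L (deriv L (v * MQV.th ζ)) (v * MQV.th ζ) :=
    (h.diff.differentiableAt (isOpen_ball.mem_nhds hb)).hasDerivAt
  have h2 := (MQV.hasDerivAt_th hζ).const_mul v
  have h3 := (h1.comp ζ h2).cexp.div_const 9
  exact h3

theorem fatou {p : ℝ} (hp : 0 < p) (hp1 : p ≤ 1) {L : ℂ → ℂ} (h : Cls p L) (h0 : (L 0).re = 0)
    {D : ℝ} (hB : Big p D L) : ∃ v : ℂ, ‖v‖ = 1 ∧ ∃ K : ℝ, 0 < K ∧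
      ∫⁻ ζ in {ζ | ζ ∈ MQV.Str ∧ 1 < ζ.re}, ENNReal.ofReal (‖gs L v ζ - 2 * p‖ ^ 2) ≤
        ENNReal.ofReal K ∧
      ∫⁻ ζ in {ζ | ζ ∈ MQV.Str ∧ ζ.re ≤ 1}, ENNReal.ofReal (‖gs L v ζ‖ ^ 2) ≤
        ENNReal.ofReal K := by
  obtain ⟨K, hK, hpair⟩ := strip_pair hp hp1 D
  -- the points
  have hz : ∀ k : ℕ, ∃ z : ℂ, ‖z‖ < 1 ∧ (k : ℝ) + 2 ≤ TT z ∧ 2 * p * TT z - D ≤ (L z).re ∧
      (k : ℝ) + Real.log 18 ≤ (L z).re := by
    intro k
    obtain ⟨z, h1, h2, h3⟩ := hB (max ((k : ℝ) + 2) (((k : ℝ) + Real.log 18 + D) / (2 * p)))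
    refine ⟨z, h1, (le_max_left _ _).trans h2, h3, ?_⟩
    have h4 : ((k : ℝ) + Real.log 18 + D) / (2 * p) ≤ TT z := (le_max_right _ _).trans h2
    rw [div_le_iff₀ (by positivity)] at h4
    linarith
  choose z hz1 hzT hzD hzL using hz
  have hz0 : ∀ k, z k ≠ 0 := by
    intro k hk
    have h1 := hzT k
    rw [hk, TT, norm_zero, add_zero, sub_zero, div_one, Real.log_one] at h1
    have h2 : (0 : ℝ) ≤ k := Nat.cast_nonneg k
    linarith
  have hb : ∀ k, ∃ b : ℝ, Real.exp (L (z k)).re / 9 ≤ b ∧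
      ∫⁻ ζ in {ζ | ζ ∈ MQV.Str ∧ 1 < ζ.re ∧ ζ.re < TT (z k)},
        ENNReal.ofReal (‖MQV.dv (Fs L (z k / (‖z k‖ : ℂ))) 1 b ζ - 2 * p‖ ^ 2) ≤
          ENNReal.ofReal K ∧
      ∫⁻ ζ in {ζ | ζ ∈ MQV.Str ∧ ζ.re ≤ 1},
        ENNReal.ofReal (‖MQV.dv (Fs L (z k / (‖z k‖ : ℂ))) 1 b ζ‖ ^ 2) ≤ ENNReal.ofReal K := by
    intro k
    have h2 : (0 : ℝ) ≤ k := Nat.cast_nonneg k
    exact hpair L h h0 (z k) (hz1 k) (by linarith [hzT k]) (hzD k) (by linarith [hzL k])
  choose b hb0 hb1 hb2 using hb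
  set w : ℕ → ℂ := fun k => z k / (‖z k‖ : ℂ) with hw
  have hwn : ∀ k, ‖w k‖ = 1 := by
    intro k
    have h1 : ‖z k‖ ≠ 0 := norm_ne_zero_iff.2 (hz0 k)
    rw [hw]
    simp only [norm_div, Complex.norm_real, norm_norm]
    exact div_self h1
  obtain ⟨v, hv, φ, hφ, hlimv⟩ := (isCompact_sphere (0 : ℂ) 1).tendsto_subseq
    (x := w) (fun k => by rw [mem_sphere_zero_iff_norm]; exact hwn k)
  rw [mem_sphere_zero_iff_norm] at hv
  have hφt : Filter.Tendsto φ Filter.atTop Filter.atTop := hφ.tendsto_atTop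
  -- `b → ∞`
  have hbt : Filter.Tendsto (fun k => b (φ k)) Filter.atTop Filter.atTop := by
    have h1 : Filter.Tendsto b Filter.atTop Filter.atTop := by
      apply Filter.tendsto_atTop_mono (f := fun k : ℕ => (k : ℝ) / 9)
      · intro k
        refine le_trans ?_ (hb0 k)
        have h2 : (k : ℝ) ≤ Real.exp (L (z k)).re := by
          have h3 := Real.add_one_le_exp (L (z k)).re
          have h4 := hzL k
          have h5 : (0 : ℝ) ≤ Real.log 18 := Real.log_nonneg (by norm_num)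
          linarith
        linarith
      · exact tendsto_natCast_atTop_atTop.atTop_div_const (by norm_num)
    exact h1.comp hφt
  have hbpos : ∀ k, 0 < b k := fun k =>
    lt_of_lt_of_le (by positivity) (hb0 k)
  have hTt : Filter.Tendsto (fun k => TT (z (φ k))) Filter.atTop Filter.atTop := by
    have h1 : Filter.Tendsto (fun k => TT (z k)) Filter.atTop Filter.atTop := by
      apply Filter.tendsto_atTop_mono (f := fun k : ℕ => (k : ℝ))
      · intro k
        linarith [hzT k]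
      · exact tendsto_natCast_atTop_atTop
    exact h1.comp hφt
  -- continuity of `F`, `F'`
  have hdiff : ∀ u : ℂ, ‖u‖ = 1 → DifferentiableOn ℂ (Fs L u) MQV.Str := fun u hu ζ hζ =>
    (fat_Fs h hu hζ).differentiableAt.differentiableWithinAt
  have hLc : ContinuousOn L (ball 0 1) := h.diff.continuousOn
  have hL'c : ContinuousOn (deriv L) (ball 0 1) := (h.diff.deriv isOpen_ball).continuousOn
  -- pointwise convergence
  have hdv : ∀ ζ ∈ MQV.Str, Filter.Tendsto (fun k => MQV.dv (Fs L (w (φ k))) 1 (b (φ k)) ζ)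
      Filter.atTop (nhds (gs L v ζ)) := by
    intro ζ hζ
    have hvb : v * MQV.th ζ ∈ ball (0 : ℂ) 1 := by
      have := MQV.th_mapsTo hζ
      rw [mem_ball_zero_iff] at this ⊢
      rw [norm_mul, hv, one_mul]
      exact this
    have e1 : Filter.Tendsto (fun k => w (φ k) * MQV.th ζ) Filter.atTop (nhds (v * MQV.th ζ)) :=
      hlimv.mul_const _
    have e2 : Filter.Tendsto (fun k => L (w (φ k) * MQV.th ζ)) Filter.atTop
        (nhds (L (v * MQV.th ζ))) :=
      (hLc.continuousAt (isOpen_ball.mem_nhds hvb)).tendsto.comp e1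
    have e3 : Filter.Tendsto (fun k => deriv L (w (φ k) * MQV.th ζ)) Filter.atTop
        (nhds (deriv L (v * MQV.th ζ))) :=
      (hL'c.continuousAt (isOpen_ball.mem_nhds hvb)).tendsto.comp e1
    have e4 : Filter.Tendsto (fun k => Fs L (w (φ k)) ζ) Filter.atTop (nhds (Fs L v ζ)) := by
      unfold Fs
      exact ((Complex.continuous_exp.tendsto _).comp e2).div_const 9
    have e5 : Filter.Tendsto (fun k => deriv (Fs L (w (φ k))) ζ) Filter.atTop
        (nhds (deriv (Fs L v) ζ)) := by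
      rw [(fat_Fs h hv hζ).deriv]
      have : (fun k => deriv (Fs L (w (φ k))) ζ) = fun k =>
          Complex.exp (L (w (φ k) * MQV.th ζ)) * (deriv L (w (φ k) * MQV.th ζ) *
            (w (φ k) * (2 * Complex.exp ζ / (Complex.exp ζ + 1) ^ 2))) / 9 := by
        funext k
        exact (fat_Fs h (hwn _) hζ).deriv
      rw [this]
      exact (((Complex.continuous_exp.tendsto _).comp e2).mul
        (e3.mul (hlimv.mul_const _))).div_const 9
    have e6 : Filter.Tendsto (fun k => ‖Fs L (w (φ k)) ζ‖ ^ 2) Filter.atTop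
        (nhds (‖Fs L v ζ‖ ^ 2)) := (e4.norm).pow 2
    have e7 : Filter.Tendsto (fun k => 1 / ((1 : ℝ) ^ 2 + ‖Fs L (w (φ k)) ζ‖ ^ 2)) Filter.atTop
        (nhds (1 / (1 + ‖Fs L v ζ‖ ^ 2))) := by
      have : (fun k => 1 / ((1 : ℝ) ^ 2 + ‖Fs L (w (φ k)) ζ‖ ^ 2)) =
          fun k => 1 / ((1 : ℝ) + ‖Fs L (w (φ k)) ζ‖ ^ 2) := by
        funext k; rw [one_pow]
      rw [this]
      exact tendsto_const_nhds.div (tendsto_const_nhds.add e6) (by positivity)
    have e8 : Filter.Tendsto (fun k => 1 / (b (φ k) ^ 2 + ‖Fs L (w (φ k)) ζ‖ ^ 2)) Filter.atTop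
        (nhds 0) := by
      have f1 : Filter.Tendsto (fun k => b (φ k) ^ 2) Filter.atTop Filter.atTop :=
        (Filter.tendsto_pow_atTop (by norm_num)).comp hbt
      have f2 : Filter.Tendsto (fun k => b (φ k) ^ 2 + ‖Fs L (w (φ k)) ζ‖ ^ 2) Filter.atTop
          Filter.atTop := Filter.tendsto_atTop_mono (fun k => by
            have := sq_nonneg ‖Fs L (w (φ k)) ζ‖
            linarith) f1
      have f3 := f2.inv_tendsto_atTop
      refine f3.congr fun k => ?_
      simp [one_div]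
    have e9 := e7.sub e8
    rw [sub_zero] at e9
    unfold MQV.dv gs
    exact (e5.mul ((Complex.continuous_conj.tendsto _).comp e4)).mul
      ((Complex.continuous_ofReal.tendsto _).comp e9)
  have hcont : ∀ k, ContinuousOn (MQV.dv (Fs L (w (φ k))) 1 (b (φ k))) MQV.Str := by
    intro k
    have h1 : ContinuousOn (Fs L (w (φ k))) MQV.Str := (hdiff _ (hwn _)).continuousOn
    have h2 : ContinuousOn (deriv (Fs L (w (φ k)))) MQV.Str :=
      ((hdiff _ (hwn _)).deriv MQV.isOpen_Str).continuousOn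
    unfold MQV.dv
    refine (h2.mul (Complex.continuous_conj.comp_continuousOn h1)).mul
      (Complex.continuous_ofReal.comp_continuousOn ?_)
    refine ContinuousOn.sub ?_ ?_
    · refine continuousOn_const.div (continuousOn_const.add (h1.norm.pow 2)) fun ζ _ => ?_
      positivity
    · refine continuousOn_const.div (continuousOn_const.add (h1.norm.pow 2)) fun ζ _ => ?_
      have := hbpos (φ k)
      positivity
  have hm1 : MeasurableSet {ζ : ℂ | ζ ∈ MQV.Str ∧ 1 < ζ.re} :=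
    MQV.isOpen_Str.measurableSet.inter (measurableSet_lt measurable_const Complex.measurable_re)
  have hm2 : MeasurableSet {ζ : ℂ | ζ ∈ MQV.Str ∧ ζ.re ≤ 1} :=
    MQV.isOpen_Str.measurableSet.inter (measurableSet_le Complex.measurable_re measurable_const)
  refine ⟨v, hv, K, hK, ?_, ?_⟩
  · refine fat_gen hm1 (fun ζ hζ => hζ.1)
      (G := fun k ζ => ENNReal.ofReal (‖MQV.dv (Fs L (w (φ k))) 1 (b (φ k)) ζ - 2 * p‖ ^ 2))
      (fun k => ENNReal.continuous_ofReal.comp_continuousOn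
        (((hcont k).sub continuousOn_const).norm.pow 2)) (fun ζ hζ => ?_) hTt (fun k => ?_)
    · exact (ENNReal.continuous_ofReal.tendsto _).comp
        ((((hdv ζ hζ).sub_const _).norm).pow 2)
    · refine le_trans (le_of_eq ?_) (hb1 (φ k))
      congr 2
      ext ζ
      exact and_assoc
  · refine fat_gen hm2 (fun ζ hζ => hζ.1)
      (G := fun k ζ => ENNReal.ofReal (‖MQV.dv (Fs L (w (φ k))) 1 (b (φ k)) ζ‖ ^ 2))
      (fun k => ENNReal.continuous_ofReal.comp_continuousOn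
        ((hcont k).norm.pow 2)) (fun ζ hζ => ?_) hTt (fun k => ?_)
    · exact (ENNReal.continuous_ofReal.tendsto _).comp (((hdv ζ hζ).norm).pow 2)
    · exact (lintegral_mono_set (fun ζ hζ => hζ.1)).trans (hb2 (φ k))

end KQS
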