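import Pool.Agent.KQS.Asm
import Pool.Agent.KQU.Fin
import Pool.Agent.KQT.Fin

set_option autoImplicit false

/-!
# KQS FIN : the fixed function bound and the final statement

`fixed`: as `KQU.upper` (in `KQU/Fin.lean`), from `asm`: `exists_cls`, `KQU.coef_Om`.
-/

open MeasureTheory Metric Set MPV Filter Topology

namespace KQS

theorem fixed : ∃ C : ℝ, 0 < C ∧ ∀ p : ℝ, 1 / 4 < p → p < 1 → ∀ f ∈ MPV.S p,
    ∀ᶠ n : ℕ in atTop, ‖MPV.coef f n‖ ≤ C * (n : ℝ) ^ (2 * p - 1) := by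
  obtain ⟨C, hC, H⟩ := asm
  refine ⟨4 * C, by positivity, fun p hp hp1 f hf => ?_⟩
  obtain ⟨L, hL, hfL, hL0⟩ := exists_cls (by linarith : (0:ℝ) < p) hp1 hf
  filter_upwards [H p hp hp1.le L hL hL0, eventually_ge_atTop 8] with n hn h8
  have h1 := KQU.coef_Om hf.1 h8
  have hsub : KQU.Om n ⊆ ball (0 : ℂ) 1 := by
    intro z hz
    rw [mem_ball_zero_iff]
    have h2 : (0 : ℝ) ≤ 1 / (n : ℝ) := by positivity
    linarith [hz.2]
  have hm : MeasurableSet (KQU.Om n) :=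
    ((isOpen_lt continuous_const continuous_norm).inter
      (isOpen_lt continuous_norm continuous_const)).measurableSet
  have h3 : ∫⁻ z in KQU.Om n, ENNReal.ofReal ‖deriv f z‖ =
      ∫⁻ z in KQU.Om n, ENNReal.ofReal (Real.exp (L z).re * ‖deriv L z‖) := by
    refine setLIntegral_congr_fun hm fun z hz => ?_
    have hzb := hsub hz
    have h4 : deriv f z = Complex.exp (L z) * deriv L z := by
      have h5 : f =ᶠ[nhds z] fun y => Complex.exp (L y) :=
        Filter.eventually_of_mem (isOpen_ball.mem_nhds hzb) fun y hy => hfL y hy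
      rw [h5.deriv_eq]
      exact ((hL.diff.differentiableAt (isOpen_ball.mem_nhds hzb)).hasDerivAt.cexp).deriv
    change ENNReal.ofReal ‖deriv f z‖ = ENNReal.ofReal (Real.exp (L z).re * ‖deriv L z‖)
    rw [h4, norm_mul, Complex.norm_exp]
  rw [h3] at h1
  have hP : 0 ≤ 4 * C * (n : ℝ) ^ (2 * p - 1) := by positivity
  refine (ENNReal.ofReal_le_ofReal_iff hP).1 ?_
  refine h1.trans ((mul_le_mul_right hn 4).trans (le_of_eq ?_))
  rw [show (4 : ENNReal) = ENNReal.ofReal 4 by norm_num, ← ENNReal.ofReal_mul (by norm_num)]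
  congr 1
  ring

theorem final : ∃ c C : ℝ, 0 < c ∧ 0 < C ∧
    (∀ p : ℝ, 1 / 4 ≤ p → p < 1 → ∀ n : ℕ, 2 ≤ n →
      ENNReal.ofReal (c / Real.sqrt (p - 1 / 4 + 1 / Real.log n) * (n : ℝ) ^ (2 * p - 1)) ≤
        MPV.A p n ∧
      MPV.A p n ≤
        ENNReal.ofReal (C / Real.sqrt (p - 1 / 4 + 1 / Real.log n) * (n : ℝ) ^ (2 * p - 1))) ∧
    ∀ p : ℝ, 1 / 4 < p → p < 1 → ∀ f ∈ MPV.S p,
      ∀ᶠ n : ℕ in atTop, ‖MPV.coef f n‖ ≤ C * (n : ℝ) ^ (2 * p - 1) := by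
  obtain ⟨c, C, hc, hC, H⟩ := KQT.final
  obtain ⟨C', hC', H'⟩ := fixed
  refine ⟨c, C + C', hc, by positivity, ?_, ?_⟩
  · intro p hp hp1 n hn
    refine ⟨(H p hp hp1 n hn).1, (H p hp hp1 n hn).2.trans (ENNReal.ofReal_le_ofReal ?_)⟩
    gcongr
    linarith
  · intro p hp hp1 f hf
    filter_upwards [H' p hp hp1 f hf] with n hn
    refine hn.trans ?_
    gcongr
    linarith

end KQS
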