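import Pool.Agent.KQS.Defs

set_option autoImplicit false

/-!
# KQS NAT1 : `∫_Om |v - z|^(-3/2) ≤ C n^(-1/2)`

Rotation by `v` preserves the measure and `Om n`: `v = 1`.  Polar coordinates (compare
`KQU.vol_polar` in `KQU/Ob.lean`): for `3/4 ≤ ρ < 1 - 1/n`, `|θ| ≤ π`:
`|1 - ρ e^{iθ}| ≥ 1 - ρ ≥ 1/n` and `|1 - ρ e^{iθ}|² ≥ 4 ρ sin² (θ/2) ≥ 3 θ²/π² ≥ θ²/4`, so
`|1 - ρ e^{iθ}|^(-3/2) ≤ n^(3/2)` and `≤ 3 |θ|^(-3/2)`; `∫_{|θ| ≤ 1/n} n^(3/2) = 2 n^(1/2)`,
`∫_{|θ| > 1/n} 3 |θ|^(-3/2) = 12 n^(1/2)`; the radial width is `1/n`.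
-/

open MeasureTheory Metric Set MPV

namespace KQS

private lemma nat1_meas (n : ℕ) : MeasurableSet (KQU.Om n) :=
  (measurableSet_lt measurable_const measurable_norm).inter
    (measurableSet_lt measurable_norm measurable_const)

private lemma nat1_dist {x φ : ℝ} (hx : 3 / 4 ≤ x) (hφ : |φ| ≤ Real.pi) :
    |φ| / 2 ≤ ‖1 - (x : ℂ) * Complex.exp (φ * Complex.I)‖ := by
  have hpi := Real.pi_pos
  have hpi2 : Real.pi ^ 2 ≤ 12 := by nlinarith [Real.pi_lt_d2]
  -- `2 sin² (φ/2) = 1 - cos φ`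
  have hs : |φ| / Real.pi ≤ Real.sin (|φ| / 2) := by
    have h := Real.mul_le_sin (x := |φ| / 2) (by positivity) (by linarith)
    have e : 2 / Real.pi * (|φ| / 2) = |φ| / Real.pi := by field_simp
    linarith
  have hc : Real.cos φ = 1 - 2 * Real.sin (|φ| / 2) ^ 2 := by
    rw [← Real.cos_abs, show |φ| = 2 * (|φ| / 2) by ring, Real.cos_two_mul, Real.sin_sq]
    ring_nf
  have hs2 : (|φ| / Real.pi) ^ 2 ≤ Real.sin (|φ| / 2) ^ 2 :=
    pow_le_pow_left₀ (by positivity) hs 2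
  have hn : ‖1 - (x : ℂ) * Complex.exp (φ * Complex.I)‖ ^ 2 =
      (1 - x) ^ 2 + 2 * x * (1 - Real.cos φ) := by
    rw [← Complex.normSq_eq_norm_sq, Complex.normSq_apply, Complex.exp_mul_I]
    simp only [Complex.sub_re, Complex.one_re, Complex.mul_re, Complex.ofReal_re, Complex.add_re,
      Complex.ofReal_im, zero_mul, sub_zero, Complex.sub_im, Complex.one_im, Complex.mul_im,
      Complex.add_im, Complex.cos_ofReal_re, Complex.cos_ofReal_im, Complex.sin_ofReal_re,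
      Complex.sin_ofReal_im, Complex.I_re, Complex.I_im, mul_zero, mul_one, zero_add, add_zero]
    have := Real.sin_sq_add_cos_sq φ
    nlinarith
  have h1 : (|φ| / 2) ^ 2 ≤ ‖1 - (x : ℂ) * Complex.exp (φ * Complex.I)‖ ^ 2 := by
    rw [hn, hc]
    have h2 : 3 / 4 * (4 * (|φ| / Real.pi) ^ 2) ≤ x * (4 * Real.sin (|φ| / 2) ^ 2) := by
      apply mul_le_mul hx (by linarith) (by positivity) (by linarith)
    have h3 : (|φ| / 2) ^ 2 ≤ 3 / 4 * (4 * (|φ| / Real.pi) ^ 2) := by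
      rw [div_pow, div_pow, div_le_iff₀ (by norm_num)]
      have e : 3 / 4 * (4 * (|φ| ^ 2 / Real.pi ^ 2)) * 2 ^ 2 = |φ| ^ 2 * (12 / Real.pi ^ 2) := by
        ring
      rw [e]
      apply le_mul_of_one_le_right (by positivity)
      rw [le_div_iff₀ (by positivity)]
      linarith
    nlinarith [sq_nonneg (1 - x)]
  exact le_of_sq_le_sq h1 (norm_nonneg _)
where
  le_of_sq_le_sq {a b : ℝ} (h : a ^ 2 ≤ b ^ 2) (hb : 0 ≤ b) : a ≤ b :=
    (abs_le_of_sq_le_sq' h hb).2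

/-- the bound of the integrand at the angle `φ` -/
private noncomputable def HH (n : ℕ) (φ : ℝ) : ENNReal :=
  (Icc (-(1 / (n : ℝ))) (1 / (n : ℝ))).indicator
      (fun _ => ENNReal.ofReal ((n : ℝ) ^ (3 / 2 : ℝ))) φ +
    ((Ioi (1 / (n : ℝ))).indicator (fun t => ENNReal.ofReal (3 * t ^ (-(3 / 2) : ℝ))) φ +
      (Ioi (1 / (n : ℝ))).indicator (fun t => ENNReal.ofReal (3 * t ^ (-(3 / 2) : ℝ))) (-φ))

private lemma nat1_point {n : ℕ} (hn : 8 ≤ n) {x φ : ℝ} (hx1 : 1 - 2 / (n : ℝ) < x)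
    (hx2 : x < 1 - 1 / (n : ℝ)) (hφ : |φ| ≤ Real.pi) :
    ENNReal.ofReal (‖1 - (x : ℂ) * Complex.exp (φ * Complex.I)‖ ^ (-(3 / 2) : ℝ)) ≤ HH n φ := by
  have hn0 : (8 : ℝ) ≤ n := by exact_mod_cast hn
  have hnpos : (0 : ℝ) < n := by linarith
  have hinv : 0 < 1 / (n : ℝ) := by positivity
  have hinv8 : 1 / (n : ℝ) ≤ 1 / 8 := one_div_le_one_div_of_le (by norm_num) hn0
  have e2 : 2 / (n : ℝ) = 2 * (1 / (n : ℝ)) := by ring
  have hx0 : 0 < x := by linarith
  set r : ℝ := ‖1 - (x : ℂ) * Complex.exp (φ * Complex.I)‖ with hr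
  have hr1 : 1 / (n : ℝ) ≤ r := by
    have h1 := norm_sub_norm_le (1 : ℂ) ((x : ℂ) * Complex.exp (φ * Complex.I))
    rw [norm_mul, Complex.norm_exp_ofReal_mul_I, mul_one, Complex.norm_real, Real.norm_eq_abs,
      abs_of_pos hx0, norm_one] at h1
    linarith
  have hr2 : |φ| / 2 ≤ r := nat1_dist (by linarith) hφ
  by_cases h : |φ| ≤ 1 / (n : ℝ)
  · have hm : φ ∈ Icc (-(1 / (n : ℝ))) (1 / (n : ℝ)) := abs_le.1 h
    unfold HH
    rw [indicator_of_mem hm]
    refine le_trans (ENNReal.ofReal_le_ofReal ?_) le_self_add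
    have h1 : r ^ (-(3 / 2) : ℝ) ≤ (1 / (n : ℝ)) ^ (-(3 / 2) : ℝ) :=
      Real.rpow_le_rpow_of_nonpos hinv hr1 (by norm_num)
    have h2 : (1 / (n : ℝ)) ^ (-(3 / 2) : ℝ) = (n : ℝ) ^ (3 / 2 : ℝ) := by
      rw [one_div, Real.inv_rpow hnpos.le, Real.rpow_neg hnpos.le, inv_inv]
    linarith
  · have h' : 1 / (n : ℝ) < |φ| := not_le.1 h
    have hφ0 : 0 < |φ| := hinv.trans h'
    have h1 : r ^ (-(3 / 2) : ℝ) ≤ (|φ| / 2) ^ (-(3 / 2) : ℝ) :=
      Real.rpow_le_rpow_of_nonpos (by positivity) hr2 (by norm_num)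
    have h2 : (|φ| / 2) ^ (-(3 / 2) : ℝ) ≤ 3 * |φ| ^ (-(3 / 2) : ℝ) := by
      rw [Real.div_rpow (by positivity) (by norm_num), div_eq_mul_inv, mul_comm,
        ← Real.rpow_neg (by norm_num), neg_neg]
      apply mul_le_mul_of_nonneg_right _ (by positivity)
      have h3 : ((2 : ℝ) ^ (3 / 2 : ℝ)) ^ 2 = 8 := by
        rw [← Real.rpow_natCast, ← Real.rpow_mul (by norm_num)]
        norm_num
      nlinarith [Real.rpow_nonneg (show (0 : ℝ) ≤ 2 by norm_num) (3 / 2 : ℝ)]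
    have h3 := h1.trans h2
    unfold HH
    rcases le_or_gt 0 φ with hs | hs
    · rw [abs_of_nonneg hs] at h' h3
      rw [indicator_of_mem (show φ ∈ Ioi (1 / (n : ℝ)) from h')]
      refine (ENNReal.ofReal_le_ofReal h3).trans ?_
      exact le_add_left le_self_add
    · rw [abs_of_neg hs] at h' h3
      rw [indicator_of_mem (show -φ ∈ Ioi (1 / (n : ℝ)) from h')]
      refine (ENNReal.ofReal_le_ofReal h3).trans ?_
      exact le_add_left (le_add_left le_rfl)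

private lemma nat1_tail {n : ℕ} (hn : 8 ≤ n) :
    ∫⁻ φ : ℝ, (Ioi (1 / (n : ℝ))).indicator
      (fun t => ENNReal.ofReal (3 * t ^ (-(3 / 2) : ℝ))) φ =
        ENNReal.ofReal (6 * (n : ℝ) ^ (1 / 2 : ℝ)) := by
  have hn0 : (8 : ℝ) ≤ n := by exact_mod_cast hn
  have hnpos : (0 : ℝ) < n := by linarith
  have hinv : 0 < 1 / (n : ℝ) := by positivity
  rw [lintegral_indicator measurableSet_Ioi, ← ofReal_integral_eq_lintegral_ofReal
    ((integrableOn_Ioi_rpow_of_lt (by norm_num) hinv).const_mul 3)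
    ((ae_restrict_iff' measurableSet_Ioi).2 (Filter.Eventually.of_forall fun t ht => ?_)),
    integral_const_mul, integral_Ioi_rpow_of_lt (by norm_num) hinv]
  · congr 1
    have h2 : (1 / (n : ℝ)) ^ (-(3 / 2) + 1 : ℝ) = (n : ℝ) ^ (1 / 2 : ℝ) := by
      rw [one_div, Real.inv_rpow hnpos.le, ← Real.rpow_neg hnpos.le]
      norm_num
    rw [h2]
    norm_num
    ring
  · have : 0 < t := hinv.trans ht
    change (0 : ℝ) ≤ 3 * t ^ (-(3 / 2) : ℝ)
    positivity

private lemma nat1_HH {n : ℕ} (hn : 8 ≤ n) :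
    ∫⁻ φ : ℝ, HH n φ ≤ ENNReal.ofReal (14 * (n : ℝ) ^ (1 / 2 : ℝ)) := by
  have hn0 : (8 : ℝ) ≤ n := by exact_mod_cast hn
  have hnpos : (0 : ℝ) < n := by linarith
  have hinv : 0 < 1 / (n : ℝ) := by positivity
  have m1 : Measurable ((Icc (-(1 / (n : ℝ))) (1 / (n : ℝ))).indicator
      (fun _ : ℝ => ENNReal.ofReal ((n : ℝ) ^ (3 / 2 : ℝ)))) :=
    measurable_const.indicator measurableSet_Icc
  have m2 : Measurable ((Ioi (1 / (n : ℝ))).indicator
      (fun t : ℝ => ENNReal.ofReal (3 * t ^ (-(3 / 2) : ℝ)))) := by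
    refine Measurable.indicator ?_ measurableSet_Ioi
    fun_prop
  have e1 : 1 / (n : ℝ) - -(1 / (n : ℝ)) = 2 * (1 / (n : ℝ)) := by ring
  unfold HH
  rw [lintegral_add_left m1, lintegral_add_left m2, nat1_tail hn,
    MeasureTheory.lintegral_neg_eq_self
      (fun t : ℝ => (Ioi (1 / (n : ℝ))).indicator
        (fun t : ℝ => ENNReal.ofReal (3 * t ^ (-(3 / 2) : ℝ))) t), nat1_tail hn,
    lintegral_indicator measurableSet_Icc, setLIntegral_const, Real.volume_Icc, e1,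
    ← ENNReal.ofReal_mul (by positivity), ← ENNReal.ofReal_add (by positivity) (by positivity),
    ← ENNReal.ofReal_add (by positivity) (by positivity)]
  apply ENNReal.ofReal_le_ofReal
  have h1 : (n : ℝ) ^ (3 / 2 : ℝ) = n * (n : ℝ) ^ (1 / 2 : ℝ) := by
    have : (3 / 2 : ℝ) = 1 + 1 / 2 := by norm_num
    rw [this, Real.rpow_add hnpos, Real.rpow_one]
  rw [h1]
  have h2 : (n : ℝ) * (n : ℝ) ^ (1 / 2 : ℝ) * (2 * (1 / (n : ℝ))) =
      2 * (n : ℝ) ^ (1 / 2 : ℝ) := by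
    field_simp
  rw [h2]
  linarith

theorem nat1 : ∃ C : ℝ, 0 < C ∧ ∀ n : ℕ, 8 ≤ n → ∀ v : ℂ, ‖v‖ = 1 →
    ∫⁻ z in KQU.Om n, ENNReal.ofReal (‖v - z‖ ^ (-(3 / 2) : ℝ)) ≤
      ENNReal.ofReal (C * (n : ℝ) ^ (-(1 / 2) : ℝ)) := by
  refine ⟨14, by norm_num, fun n hn v hv => ?_⟩
  have hn0 : (8 : ℝ) ≤ n := by exact_mod_cast hn
  have hnpos : (0 : ℝ) < n := by linarith
  have hinv : 0 < 1 / (n : ℝ) := by positivity
  have hinv8 : 1 / (n : ℝ) ≤ 1 / 8 := one_div_le_one_div_of_le (by norm_num) hn0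
  have e2 : 2 / (n : ℝ) = 2 * (1 / (n : ℝ)) := by ring
  -- rotation
  have hrot : ∫⁻ z in KQU.Om n, ENNReal.ofReal (‖v - z‖ ^ (-(3 / 2) : ℝ)) =
      ∫⁻ z, (KQU.Om n).indicator (fun z => ENNReal.ofReal (‖1 - z‖ ^ (-(3 / 2) : ℝ))) z := by
    rw [← lintegral_indicator (nat1_meas n)]
    let a : Circle := ⟨v, mem_sphere_zero_iff_norm.2 hv⟩
    have hmp := (rotation a).measurePreserving
    rw [← hmp.lintegral_comp_emb (rotation a).toHomeomorph.measurableEmbedding]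
    refine lintegral_congr fun z => ?_
    have hz : (rotation a) z = v * z := rotation_apply a z
    rw [hz]
    by_cases h : z ∈ KQU.Om n
    · have h' : v * z ∈ KQU.Om n := by
        unfold KQU.Om at h ⊢
        rw [Set.mem_ofPred_eq, norm_mul, hv, one_mul]
        exact h
      rw [indicator_of_mem h, indicator_of_mem h']
      have : v - v * z = v * (1 - z) := by ring
      rw [this, norm_mul, hv, one_mul]
    · have h' : v * z ∉ KQU.Om n := by
        unfold KQU.Om at h ⊢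
        rw [Set.mem_ofPred_eq, norm_mul, hv, one_mul]
        exact h
      rw [indicator_of_notMem h, indicator_of_notMem h']
  rw [hrot, ← Complex.lintegral_comp_polarCoord_symm]
  have h2 : polarCoord.target = Ioi (0 : ℝ) ×ˢ Ioo (-Real.pi) Real.pi := rfl
  rw [h2]
  have hsymm : ∀ x φ : ℝ, Complex.polarCoord.symm (x, φ) = (x : ℂ) * Complex.exp (φ * Complex.I) :=
    fun x φ => by
      rw [Complex.polarCoord_symm_apply, Complex.exp_mul_I, Complex.ofReal_cos, Complex.ofReal_sin]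
  have hF : Measurable ((KQU.Om n).indicator
      (fun z => ENNReal.ofReal (‖1 - z‖ ^ (-(3 / 2) : ℝ)))) := by
    refine Measurable.indicator ?_ (nat1_meas n)
    fun_prop
  have hmeas : Measurable fun p : ℝ × ℝ =>
      ENNReal.ofReal p.1 • (KQU.Om n).indicator
        (fun z => ENNReal.ofReal (‖1 - z‖ ^ (-(3 / 2) : ℝ))) (Complex.polarCoord.symm p) := by
    have e : (fun p : ℝ × ℝ => ENNReal.ofReal p.1 • (KQU.Om n).indicator
        (fun z => ENNReal.ofReal (‖1 - z‖ ^ (-(3 / 2) : ℝ))) (Complex.polarCoord.symm p)) =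
        fun p : ℝ × ℝ => ENNReal.ofReal p.1 * (KQU.Om n).indicator
        (fun z => ENNReal.ofReal (‖1 - z‖ ^ (-(3 / 2) : ℝ)))
          ((p.1 : ℂ) * Complex.exp (p.2 * Complex.I)) := by
      funext p
      have := hsymm p.1 p.2
      rw [show (p.1, p.2) = p from rfl] at this
      rw [this, smul_eq_mul]
    rw [e]
    have hm : Measurable fun p : ℝ × ℝ => (p.1 : ℂ) * Complex.exp (p.2 * Complex.I) := by fun_prop
    exact (ENNReal.measurable_ofReal.comp measurable_fst).mul (hF.comp hm)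
  rw [Measure.volume_eq_prod, setLIntegral_prod_symm _ hmeas.aemeasurable]
  have h3 : ∀ φ ∈ Ioo (-Real.pi) Real.pi, (∫⁻ x in Ioi (0 : ℝ), ENNReal.ofReal (x, φ).1 •
      (KQU.Om n).indicator (fun z => ENNReal.ofReal (‖1 - z‖ ^ (-(3 / 2) : ℝ)))
        (Complex.polarCoord.symm (x, φ))) ≤ ENNReal.ofReal (1 / (n : ℝ)) * HH n φ := by
    intro φ hφ
    have hφ' : |φ| ≤ Real.pi := abs_le.2 ⟨hφ.1.le, hφ.2.le⟩
    calc (∫⁻ x in Ioi (0 : ℝ), ENNReal.ofReal (x, φ).1 •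
      (KQU.Om n).indicator (fun z => ENNReal.ofReal (‖1 - z‖ ^ (-(3 / 2) : ℝ)))
        (Complex.polarCoord.symm (x, φ)))
        ≤ ∫⁻ x in Ioi (0 : ℝ), (Ioo (1 - 2 / (n : ℝ)) (1 - 1 / (n : ℝ))).indicator
            (fun _ => HH n φ) x := by
          refine setLIntegral_mono' measurableSet_Ioi fun x hx => ?_
          have hx0 : 0 < x := hx
          rw [hsymm, smul_eq_mul]
          by_cases hxA : (x : ℂ) * Complex.exp (φ * Complex.I) ∈ KQU.Om n
          · have hO := hxA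
            unfold KQU.Om at hO
            rw [Set.mem_ofPred_eq, norm_mul, Complex.norm_exp_ofReal_mul_I, mul_one, Complex.norm_real,
              Real.norm_eq_abs, abs_of_pos hx0] at hO
            rw [indicator_of_mem hxA, indicator_of_mem (show x ∈ Ioo _ _ from ⟨hO.1, hO.2⟩)]
            calc ENNReal.ofReal x * ENNReal.ofReal
                  (‖1 - (x : ℂ) * Complex.exp (φ * Complex.I)‖ ^ (-(3 / 2) : ℝ))
                ≤ 1 * HH n φ := by
                  apply mul_le_mul' _ (nat1_point hn hO.1 hO.2 hφ')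
                  rw [← ENNReal.ofReal_one]
                  exact ENNReal.ofReal_le_ofReal (by linarith [hO.2])
              _ = HH n φ := one_mul _
          · rw [indicator_of_notMem hxA, mul_zero]; exact bot_le
      _ ≤ ∫⁻ x, (Ioo (1 - 2 / (n : ℝ)) (1 - 1 / (n : ℝ))).indicator
            (fun _ => HH n φ) x := setLIntegral_le_lintegral _ _
      _ = ENNReal.ofReal (1 / (n : ℝ)) * HH n φ := by
          rw [lintegral_indicator measurableSet_Ioo, setLIntegral_const, Real.volume_Ioo, mul_comm]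
          congr 2
          ring
  calc _ ≤ ∫⁻ φ in Ioo (-Real.pi) Real.pi, ENNReal.ofReal (1 / (n : ℝ)) * HH n φ :=
        setLIntegral_mono' measurableSet_Ioo h3
    _ ≤ ∫⁻ φ, ENNReal.ofReal (1 / (n : ℝ)) * HH n φ := setLIntegral_le_lintegral _ _
    _ = ENNReal.ofReal (1 / (n : ℝ)) * ∫⁻ φ, HH n φ := by
        rw [lintegral_const_mul' _ _ ENNReal.ofReal_ne_top]
    _ ≤ ENNReal.ofReal (1 / (n : ℝ)) * ENNReal.ofReal (14 * (n : ℝ) ^ (1 / 2 : ℝ)) := by
        gcongr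
        exact nat1_HH hn
    _ = ENNReal.ofReal (14 * (n : ℝ) ^ (-(1 / 2) : ℝ)) := by
        rw [← ENNReal.ofReal_mul (by positivity)]
        congr 1
        have h1 : (n : ℝ) ^ (-(1 / 2) : ℝ) = 1 / n * (n : ℝ) ^ (1 / 2 : ℝ) := by
          have : (-(1 / 2) : ℝ) = -1 + 1 / 2 := by norm_num
          rw [this, Real.rpow_add hnpos, Real.rpow_neg_one, inv_eq_one_div]
        rw [h1]
        ring

end KQS
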