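import Pool.Agent.KQS.Defs

set_option autoImplicit false

/-!
# KQS PAIR : the two strip estimates (`p`, `D` fixed, constants may depend on them)

`v = z/|z|`, `T = TT z`, `F = Fs L v` is `MV Str p` (as in `KQU/Ga.lean`, `grow_ann`, with `r = 1`:
`MQV.MV.comp`; `f/9 = exp ∘ (L - log 9)`, see `KQU/Gs.lean` for `|f| ≤ 9` on `|z| ≤ 1/2` and for
`MV` of `f/9`), `|F| ≤ 1` on `Bz 0`, `b` = max of `|F|` on `Bz T` (compact; `T ∈ Bz T`,
`v th T = z`, `MQV.th_log`), so `b ≥ e^{Re L z}/9 ≥ 2`.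
* first bound: `MQV.grow_core`, `2pT - log b ≤ D + log 9`.
* second bound: `MQV.strip_lower` with `x₀ = 1`, `a = 1`, `c₁` from `MQV.end_left` (`X := 2`),
  `c₂` from `MQV.end_right`: `∫_{1<Re<T+1} |dv|² ≥ (π log b - c₁ - c₂)²/(π T)`; `MQV.lay_energy`
  (on `Str`): `∫_Str |dv|² ≤ 2πp log b + 2πp`.  Subtract.
-/

open MeasureTheory Metric Set MPV

namespace KQS

private theorem pair_num {p T l c D' Cg : ℝ} (hp : 0 < p) (hT : 1 ≤ T) (hl : 0 ≤ l) (hc : 0 ≤ c)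
    (hD : 0 ≤ D') (hCg : 0 ≤ Cg) (h1 : 2 * p * T - l ≤ D') (h2 : l ≤ 2 * p * T + Cg) :
    (2 * Real.pi * p * l + 2 * Real.pi * p) - (Real.pi * l - c) ^ 2 / (Real.pi * T) ≤
      2 * Real.pi * p + (2 * p + Cg) * Real.pi * D' + 2 * c * (2 * p + Cg) := by
  have hpi := Real.pi_pos
  have hT0 : 0 < T := by linarith
  have hlT : l / T ≤ 2 * p + Cg := by
    rw [div_le_iff₀ hT0]
    nlinarith
  have hlT0 : 0 ≤ l / T := by positivity
  have e1 : (Real.pi * l) ^ 2 / (Real.pi * T) - 2 * c * l / T ≤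
      (Real.pi * l - c) ^ 2 / (Real.pi * T) := by
    have e2 : (Real.pi * l - c) ^ 2 / (Real.pi * T) =
        (Real.pi * l) ^ 2 / (Real.pi * T) - 2 * c * l / T + c ^ 2 / (Real.pi * T) := by
      field_simp
      ring
    rw [e2]
    have : 0 ≤ c ^ 2 / (Real.pi * T) := by positivity
    linarith
  have e3 : (Real.pi * l) ^ 2 / (Real.pi * T) = 2 * Real.pi * p * l -
      (l / T) * Real.pi * (2 * p * T - l) := by
    field_simp
    ring
  have e4 : (l / T) * Real.pi * (2 * p * T - l) ≤ (2 * p + Cg) * Real.pi * D' := by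
    calc (l / T) * Real.pi * (2 * p * T - l) ≤ (l / T) * Real.pi * D' :=
          mul_le_mul_of_nonneg_left h1 (by positivity)
      _ ≤ (2 * p + Cg) * Real.pi * D' := by
          apply mul_le_mul_of_nonneg_right _ hD
          exact mul_le_mul_of_nonneg_right hlT hpi.le
  have e5 : 2 * c * l / T ≤ 2 * c * (2 * p + Cg) := by
    rw [mul_div_assoc]
    exact mul_le_mul_of_nonneg_left hlT (by positivity)
  linarith

theorem strip_pair {p : ℝ} (hp : 0 < p) (hp1 : p ≤ 1) (D : ℝ) : ∃ K : ℝ, 0 < K ∧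
    ∀ L : ℂ → ℂ, Cls p L → (L 0).re = 0 → ∀ z : ℂ, ‖z‖ < 1 → 2 ≤ TT z →
      2 * p * TT z - D ≤ (L z).re → Real.log 18 ≤ (L z).re →
      ∃ b : ℝ, Real.exp (L z).re / 9 ≤ b ∧
      ∫⁻ ζ in {ζ | ζ ∈ MQV.Str ∧ 1 < ζ.re ∧ ζ.re < TT z},
        ENNReal.ofReal (‖MQV.dv (Fs L (z / (‖z‖ : ℂ))) 1 b ζ - 2 * p‖ ^ 2) ≤ ENNReal.ofReal K ∧
      ∫⁻ ζ in {ζ | ζ ∈ MQV.Str ∧ ζ.re ≤ 1},
        ENNReal.ofReal (‖MQV.dv (Fs L (z / (‖z‖ : ℂ))) 1 b ζ‖ ^ 2) ≤ ENNReal.ofReal K := by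
  obtain ⟨Cg, hCg, HG⟩ := MQV.grow_core hp
  obtain ⟨C1, hC1, H1⟩ := MQV.end_left hp (X := 2) (by norm_num)
  obtain ⟨C2, hC2, H2⟩ := MQV.end_right hp
  have hpi := Real.pi_pos
  have hl9 : 0 < Real.log 9 := Real.log_pos (by norm_num)
  obtain ⟨D', hD'⟩ : ∃ D' : ℝ, D' = |D| + Real.log 9 := ⟨_, rfl⟩
  have hD'0 : 0 ≤ D' := by rw [hD']; positivity
  obtain ⟨K1, hK1⟩ : ∃ K1 : ℝ, K1 = 2 * Real.pi * p * D' + Cg := ⟨_, rfl⟩
  obtain ⟨K2, hK2⟩ : ∃ K2 : ℝ, K2 = 2 * p * (C1 + C2) + 2 * Real.pi * p := ⟨_, rfl⟩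
  obtain ⟨K3, hK3⟩ : ∃ K3 : ℝ, K3 = 2 * Real.pi * p + (2 * p + Cg) * Real.pi * D' +
    2 * (C1 + C2) * (2 * p + Cg) := ⟨_, rfl⟩
  have hK10 : 0 ≤ K1 := by rw [hK1]; positivity
  have hK20 : 0 ≤ K2 := by rw [hK2]; positivity
  have hK30 : 0 ≤ K3 := by rw [hK3]; positivity
  refine ⟨K1 + K2 + K3 + 1, by linarith, ?_⟩
  intro L hL hL0 z hz1 hT2 hbig h18
  have hz0 := norm_nonneg z
  set T : ℝ := TT z with hTd
  have hzne : ‖z‖ ≠ 0 := by
    intro h
    rw [hTd] at hT2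
    unfold TT at hT2
    rw [h] at hT2
    norm_num at hT2
  set v : ℂ := z / (‖z‖ : ℂ) with hv
  have hzC : ((‖z‖ : ℝ) : ℂ) ≠ 0 := by exact_mod_cast hzne
  have hvn : ‖v‖ = 1 := by
    rw [hv, norm_div, Complex.norm_real, Real.norm_of_nonneg hz0, div_self hzne]
  have hv0 : v ≠ 0 := by
    intro h
    rw [h, norm_zero] at hvn
    exact zero_ne_one hvn
  have hvz : v * MQV.th ((T : ℝ) : ℂ) = z := by
    rw [hTd]
    unfold TT
    rw [MQV.th_log hz0 hz1]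
    exact div_mul_cancel₀ _ hzC
  have hmaps : MapsTo (fun ζ => v * MQV.th ζ) MQV.Str (ball 0 1) := by
    intro ζ hζ
    have h1 := MQV.th_mapsTo hζ
    rw [mem_ball_zero_iff] at h1 ⊢
    rw [norm_mul, hvn, one_mul]
    exact h1
  have hMV0 : MQV.MV (ball 0 1) p (fun w => (9 : ℂ)⁻¹ * Complex.exp (L w)) :=
    (KQU.toMV hL).const_mul isOpen_ball hp.le _
  have hFeq : Fs L v = fun ζ => (9 : ℂ)⁻¹ * Complex.exp (L (v * MQV.th ζ)) := by
    funext ζ
    unfold Fs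
    rw [div_eq_inv_mul]
  have hF : MQV.MV MQV.Str p (Fs L v) := by
    rw [hFeq]
    refine MQV.MV.comp (φ := fun ζ => v * MQV.th ζ) MQV.isOpen_Str isOpen_ball hMV0
      (MQV.th_diff.const_mul v) hmaps ?_
    intro x hx y hy hxy
    exact MQV.th_injOn hx hy (mul_left_cancel₀ hv0 hxy)
  have hFn : ∀ ζ, ‖Fs L v ζ‖ = Real.exp (L (v * MQV.th ζ)).re / 9 := by
    intro ζ
    unfold Fs
    rw [norm_div, Complex.norm_exp]
    norm_num
  have hB0 : ∀ ζ ∈ MQV.Bz 0, ‖Fs L v ζ‖ ≤ 1 := by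
    intro ζ hζ
    rw [hFn, div_le_one (by norm_num)]
    have h0 := hζ.2
    rw [Complex.ofReal_zero, sub_zero] at h0
    set w : ℂ := v * MQV.th ζ with hw
    have hw2 : ‖w‖ ≤ 1 / 2 := by
      rw [hw, norm_mul, hvn, one_mul]
      exact h0
    have hwb : w ∈ ball (0 : ℂ) 1 := by
      rw [mem_ball_zero_iff]
      linarith
    have h1 := (KQU.cls_mono hp1 hL).growth (by norm_num) hwb
    rw [hL0, sub_zero] at h1
    have h2 := (le_abs_self _).trans h1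
    have hw0 := norm_nonneg w
    have h3 : (1 + ‖w‖) / (1 - ‖w‖) ≤ 3 := by
      rw [div_le_iff₀ (by linarith)]
      linarith
    have h4 : Real.log ((1 + ‖w‖) / (1 - ‖w‖)) ≤ Real.log 3 :=
      Real.log_le_log (div_pos (by linarith) (by linarith)) h3
    have h5 : Real.log 9 = 2 * Real.log 3 := by
      rw [show (9 : ℝ) = 3 ^ 2 by norm_num, Real.log_pow]
      norm_num
    have h6 : (L w).re ≤ Real.log 9 := by linarith
    calc Real.exp (L w).re ≤ Real.exp (Real.log 9) := Real.exp_le_exp.2 h6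
      _ = 9 := Real.exp_log (by norm_num)
  have hcont : ContinuousOn (fun ζ => ‖Fs L v ζ‖) (MQV.Bz T) :=
    (hF.diff.continuousOn.mono fun ζ hζ => hζ.1).norm
  obtain ⟨ζ1, hζ1, hmax⟩ := (MQV.isCompact_Bz T).exists_isMaxOn ⟨_, MQV.real_mem_Bz T⟩ hcont
  have hmax' : ∀ ζ ∈ MQV.Bz T, ‖Fs L v ζ‖ ≤ ‖Fs L v ζ1‖ := fun ζ hζ => hmax hζ
  set b : ℝ := ‖Fs L v ζ1‖ with hb
  have hzb : Real.exp (L z).re / 9 ≤ b := by
    have h1 := hmax' _ (MQV.real_mem_Bz T)
    rwa [hFn, hvz] at h1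
  have hb2 : 2 ≤ b := by
    refine le_trans ?_ hzb
    rw [le_div_iff₀ (by norm_num)]
    have h1 := Real.exp_le_exp.2 h18
    rw [Real.exp_log (by norm_num)] at h1
    linarith
  have hb0 : 0 < b := by linarith
  set l : ℝ := Real.log b with hl
  have hl0 : 0 ≤ l := Real.log_nonneg (by linarith)
  have hLl : (L z).re - Real.log 9 ≤ l := by
    rw [hl, Real.le_log_iff_exp_le hb0, Real.exp_sub, Real.exp_log (by norm_num)]
    exact hzb
  have hG := HG (Fs L v) hF T b (by linarith) hb2 hB0 hmax' ⟨ζ1, hζ1, le_rfl⟩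
  have hdef : 2 * p * T - l ≤ D' := by
    rw [hD']
    have := le_abs_self D
    linarith
  refine ⟨b, hzb, ?_, ?_⟩
  · refine hG.2.trans (ENNReal.ofReal_le_ofReal ?_)
    have h1 : 2 * Real.pi * p * (2 * p * T - Real.log b) ≤ 2 * Real.pi * p * D' :=
      mul_le_mul_of_nonneg_left hdef (by positivity)
    linarith
  · have e3 := MQV.lay_energy MQV.isOpen_Str hp.le one_pos (a := 1) (b := b) (by linarith) hF
    rw [div_one, ← hl] at e3
    set A : Set ℂ := {ζ | ζ ∈ MQV.Str ∧ ζ.re ≤ 1} with hA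
    set B : Set ℂ := {ζ | ζ ∈ MQV.Str ∧ 1 < ζ.re ∧ ζ.re < T + 1} with hB
    set g : ℂ → ENNReal := fun ζ => ENNReal.ofReal (‖MQV.dv (Fs L v) 1 b ζ‖ ^ 2) with hg
    have hBm : MeasurableSet B := by
      have : B = MQV.Str ∩ ({ζ : ℂ | 1 < ζ.re} ∩ {ζ : ℂ | ζ.re < T + 1}) := rfl
      rw [this]
      exact (MQV.isOpen_Str.inter ((isOpen_lt continuous_const Complex.continuous_re).inter
        (isOpen_lt Complex.continuous_re continuous_const))).measurableSet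
    have hdisj : Disjoint A B := by
      rw [Set.disjoint_left]
      intro ζ h1 h2
      exact absurd h1.2 (not_le.2 h2.2.1)
    have hsum : (∫⁻ ζ in A, g ζ) + ∫⁻ ζ in B, g ζ ≤
        ENNReal.ofReal (2 * Real.pi * p * l + 2 * Real.pi * p) := by
      rw [← lintegral_union hBm hdisj]
      refine le_trans (lintegral_mono_set ?_) e3
      intro ζ hζ
      rcases hζ with h | h
      · exact h.1
      · exact h.1
    by_cases hc : C1 + C2 ≤ Real.pi * l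
    · have f1 : ∫⁻ ζ in {ζ | ζ ∈ MQV.Str ∧ (1 : ℝ) < ζ.re ∧ ζ.re < 1 + 1},
          ENNReal.ofReal (MQV.lv (Fs L v) 1 b ζ - Real.log 1) ≤ ENNReal.ofReal C1 := by
        refine le_trans (lintegral_mono_set ?_) (H1 (Fs L v) hF 1 b one_pos (by linarith) hB0)
        intro ζ hζ
        obtain ⟨h1, h2, h3⟩ := hζ
        exact ⟨h1, by linarith, by linarith⟩
      have f2 : ∫⁻ ζ in {ζ | ζ ∈ MQV.Str ∧ T < ζ.re ∧ ζ.re < T + 1},
          ENNReal.ofReal (Real.log b - MQV.lv (Fs L v) 1 b ζ) ≤ ENNReal.ofReal C2 :=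
        H2 (Fs L v) hF T 1 b b one_pos (by linarith) le_rfl hmax' ⟨ζ1, hζ1, le_rfl⟩
      have f3 := MQV.strip_lower hF.diff one_pos (b := b) (by linarith) (x₀ := 1) (T := T)
        (by linarith) hC1.le hC2.le (by rw [div_one]; exact hc) f1 f2
      rw [div_one, ← hl] at f3
      have e5 : T + 1 - 1 = T := by ring
      rw [e5] at f3
      have f4 : (∫⁻ ζ in A, g ζ) + ENNReal.ofReal ((Real.pi * l - C1 - C2) ^ 2 / (Real.pi * T)) ≤
          ENNReal.ofReal (2 * Real.pi * p * l + 2 * Real.pi * p) :=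
        (add_le_add le_rfl f3).trans hsum
      have f5 := ENNReal.le_sub_of_add_le_right ENNReal.ofReal_ne_top f4
      rw [← ENNReal.ofReal_sub _ (by positivity)] at f5
      refine f5.trans (ENNReal.ofReal_le_ofReal ?_)
      have f6 := pair_num (T := T) (l := l) (c := C1 + C2) (D' := D') (Cg := Cg) hp
        (by linarith) hl0 (by positivity) hD'0 hCg.le hdef hG.1
      have f7 : Real.pi * l - C1 - C2 = Real.pi * l - (C1 + C2) := by ring
      rw [f7]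
      linarith
    · rw [not_le] at hc
      refine le_trans (le_trans le_self_add hsum) (ENNReal.ofReal_le_ofReal ?_)
      have f1 : 2 * Real.pi * p * l ≤ 2 * p * (C1 + C2) := by
        calc 2 * Real.pi * p * l = 2 * p * (Real.pi * l) := by ring
          _ ≤ 2 * p * (C1 + C2) := mul_le_mul_of_nonneg_left hc.le (by positivity)
      linarith

end KQS
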