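import Pool.Agent.KQS.Fat
import Pool.Agent.MQV.Brx
import Pool.Agent.MPV.Gro

set_option autoImplicit false

/-!
# KQS REG : back to the disc

`w = z/v`, `ζ = lg w`, `th' ζ = (1 - w²)/2` (`MQV.hasDerivAt_th`).  On the disc put
`E z = ‖gs L v ζ - 2p 1_{Re ζ > 1}‖ · 2/|1 - w²|` (`0` outside), so
`∫_disc E² = ∫_Str ‖gs - 2p 1_{Re>1}‖² < ∞` (change of variables, see `KQU/Ga.lean` `energy_le`:
`lintegral_image_eq_lintegral_abs_det_fderiv_mul`, `v th` maps `Str` injectively ONTO the disc).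
`gs L v ζ = L'(z) · v th'(ζ) · |F|²/(1+|F|²)`, `|F| = e^{Re L z}/9 ≥ 1/9`, so
`|L' z| ≤ 82 (2p 1_{Re ζ>1} 2/|1 - w²| + E z)`, and `|1 + w| ≥ 1` if `Re ζ > 1`
(`|1+w| > e |1-w|`, `|1+w| + |1-w| ≥ 2`), `|1 - w| = |v - z|`.
-/

open MeasureTheory Metric Set MPV

namespace KQS

private theorem exp1_ne {ζ : ℂ} (h : ζ ∈ MQV.Str) : Complex.exp ζ + 1 ≠ 0 := by
  intro h1
  have h2 := MQV.exp_re_pos h
  have h3 := congrArg Complex.re h1
  rw [Complex.add_re, Complex.one_re, Complex.zero_re] at h3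
  linarith

private theorem one_sub_th {ζ : ℂ} (h : ζ ∈ MQV.Str) :
    1 - MQV.th ζ ^ 2 = 2 * (2 * Complex.exp ζ / (Complex.exp ζ + 1) ^ 2) := by
  have h1 := exp1_ne h
  unfold MQV.th
  field_simp
  ring

/-- change of variables: a density `G` on the strip and its transfer to the disc -/
theorem transfer {v : ℂ} (hv : ‖v‖ = 1) (G : ℂ → ℝ) :
    ∫⁻ z in ball (0 : ℂ) 1, ENNReal.ofReal
      ((G (MQV.lg (z / v)) * (2 / ‖1 - (z / v) ^ 2‖)) ^ 2) =
      ∫⁻ ζ in MQV.Str, ENNReal.ofReal (G ζ ^ 2) := by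
  have hv0 : v ≠ 0 := by
    rintro rfl
    rw [norm_zero] at hv
    exact zero_ne_one hv
  have hd : ∀ ζ ∈ MQV.Str, HasDerivAt (fun ζ => v * MQV.th ζ)
      (v * (2 * Complex.exp ζ / (Complex.exp ζ + 1) ^ 2)) ζ := fun ζ hζ =>
    (MQV.hasDerivAt_th hζ).const_mul v
  have hinj : InjOn (fun ζ => v * MQV.th ζ) MQV.Str := by
    intro x hx y hy hxy
    exact MQV.th_injOn hx hy (mul_left_cancel₀ hv0 hxy)
  have himg : ball (0 : ℂ) 1 = (fun ζ => v * MQV.th ζ) '' MQV.Str := by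
    apply Subset.antisymm
    · intro z hz
      have h1 : z / v ∈ ball (0 : ℂ) 1 := by
        rw [mem_ball_zero_iff] at hz ⊢
        rw [norm_div, hv, div_one]
        exact hz
      refine ⟨MQV.lg (z / v), MQV.lg_mapsTo h1, ?_⟩
      change v * MQV.th (MQV.lg (z / v)) = z
      rw [MQV.th_lg h1, mul_div_cancel₀ z hv0]
    · rintro _ ⟨ζ, hζ, rfl⟩
      have h1 := mem_ball_zero_iff.1 (MQV.th_mapsTo hζ)
      rw [mem_ball_zero_iff]
      change ‖v * MQV.th ζ‖ < 1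
      rw [norm_mul, hv, one_mul]
      exact h1
  have hder : ∀ z ∈ MQV.Str, HasFDerivWithinAt (fun ζ => v * MQV.th ζ)
      ((v * (2 * Complex.exp z / (Complex.exp z + 1) ^ 2)) • (1 : ℂ →L[ℝ] ℂ))
        MQV.Str z := fun z hz =>
    (hd z hz).complexToReal_fderiv.hasFDerivWithinAt
  rw [himg, lintegral_image_eq_lintegral_abs_det_fderiv_mul (volume : Measure ℂ)
    MQV.isOpen_Str.measurableSet hder hinj]
  refine setLIntegral_congr_fun MQV.isOpen_Str.measurableSet fun ζ hζ => ?_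
  have h2 : v * MQV.th ζ / v = MQV.th ζ := mul_div_cancel_left₀ _ hv0
  have hne : 2 * Complex.exp ζ / (Complex.exp ζ + 1) ^ 2 ≠ 0 :=
    div_ne_zero (mul_ne_zero two_ne_zero (Complex.exp_ne_zero ζ)) (pow_ne_zero 2 (exp1_ne hζ))
  have hpos : 0 < ‖2 * Complex.exp ζ / (Complex.exp ζ + 1) ^ 2‖ := norm_pos_iff.2 hne
  rw [MQV.Brx.det_smul, abs_of_nonneg (sq_nonneg _), ← ENNReal.ofReal_mul (sq_nonneg _), h2,
    MQV.lg_th hζ, one_sub_th hζ]
  congr 1
  rw [norm_mul v, hv, one_mul, norm_mul 2]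
  have h3 : ‖(2 : ℂ)‖ = 2 := by simp
  rw [h3]
  field_simp

/-- `|F|²/(1+|F|²)`, `F = e^L/9` -/
private noncomputable def kap (L : ℂ → ℂ) (z : ℂ) : ℝ :=
  ‖Complex.exp (L z) / 9‖ ^ 2 / (1 + ‖Complex.exp (L z) / 9‖ ^ 2)

private theorem gs_eq {L : ℂ → ℂ} (hL : DifferentiableOn ℂ L (ball 0 1)) {v : ℂ} (hv : ‖v‖ = 1)
    {z : ℂ} (hz : z ∈ ball (0 : ℂ) 1) : gs L v (MQV.lg (z / v)) =
      deriv L z * v * (kap L z : ℂ) * ((1 - (z / v) ^ 2) / 2) := by
  have hv0 : v ≠ 0 := by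
    rintro rfl
    rw [norm_zero] at hv
    exact zero_ne_one hv
  have hw : z / v ∈ ball (0 : ℂ) 1 := by
    rw [mem_ball_zero_iff] at hz ⊢
    rw [norm_div, hv, div_one]
    exact hz
  have hζ := MQV.lg_mapsTo hw
  set ζ := MQV.lg (z / v) with hζd
  have hth : MQV.th ζ = z / v := MQV.th_lg hw
  have hvz : v * MQV.th ζ = z := by rw [hth, mul_div_cancel₀ z hv0]
  have hth' : 2 * Complex.exp ζ / (Complex.exp ζ + 1) ^ 2 = (1 - (z / v) ^ 2) / 2 := by
    rw [← hth, one_sub_th hζ]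
    ring
  have hd0 : HasDerivAt L (deriv L z) (v * MQV.th ζ) := by
    rw [hvz]
    exact (hL.differentiableAt (isOpen_ball.mem_nhds hz)).hasDerivAt
  have hd1 : HasDerivAt (fun ζ => L (v * MQV.th ζ))
      (deriv L z * (v * (2 * Complex.exp ζ / (Complex.exp ζ + 1) ^ 2))) ζ :=
    HasDerivAt.comp (h := fun ζ => v * MQV.th ζ) ζ hd0 ((MQV.hasDerivAt_th hζ).const_mul v)
  have hd2 : HasDerivAt (Fs L v) (Complex.exp (L (v * MQV.th ζ)) *
      (deriv L z * (v * (2 * Complex.exp ζ / (Complex.exp ζ + 1) ^ 2))) / 9) ζ :=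
    hd1.cexp.div_const 9
  have hF : Fs L v ζ = Complex.exp (L z) / 9 := by
    unfold Fs
    rw [hvz]
  unfold gs kap
  rw [hd2.deriv, hF, hvz, hth']
  set F : ℂ := Complex.exp (L z) / 9 with hFd
  have h1 : F * (starRingEnd ℂ) F = ((‖F‖ ^ 2 : ℝ) : ℂ) := by
    rw [Complex.mul_conj, Complex.normSq_eq_norm_sq]
  have h2 : Complex.exp (L z) * (deriv L z * (v * ((1 - (z / v) ^ 2) / 2))) / 9 *
      (starRingEnd ℂ) F = F * (starRingEnd ℂ) F * (deriv L z * (v * ((1 - (z / v) ^ 2) / 2))) := by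
    rw [hFd]
    ring
  rw [h2, h1]
  push_cast
  ring

private theorem kap_meas {L : ℂ → ℂ} (hL : DifferentiableOn ℂ L (ball 0 1)) (v : ℂ) :
    ContinuousOn (fun z => deriv L z * v * (kap L z : ℂ)) (ball 0 1) := by
  have h1 : ContinuousOn (deriv L) (ball 0 1) := (hL.deriv isOpen_ball).continuousOn
  have h2 : ContinuousOn (fun z => ‖Complex.exp (L z) / 9‖ ^ 2) (ball 0 1) :=
    ((hL.continuousOn.cexp.div_const 9).norm).pow 2
  have h3 : ContinuousOn (kap L) (ball 0 1) := by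
    unfold kap
    refine h2.div (continuousOn_const.add h2) fun z _ => ?_
    positivity
  exact (h1.mul continuousOn_const).mul (Complex.continuous_ofReal.comp_continuousOn h3)

private theorem kap_ge {L : ℂ → ℂ} {z : ℂ} (h : 0 ≤ (L z).re) : 1 / 82 ≤ kap L z := by
  have h1 : ‖Complex.exp (L z) / 9‖ = Real.exp (L z).re / 9 := by
    rw [norm_div, Complex.norm_exp]
    norm_num
  have h2 : (1 : ℝ) / 9 ≤ ‖Complex.exp (L z) / 9‖ := by
    rw [h1]
    have := Real.one_le_exp h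
    linarith
  have h3 : (1 : ℝ) / 81 ≤ ‖Complex.exp (L z) / 9‖ ^ 2 := by nlinarith
  unfold kap
  rw [div_le_div_iff₀ (by norm_num) (by positivity)]
  linarith

theorem reg {p : ℝ} (hp : 0 < p) (hp1 : p ≤ 1) {L : ℂ → ℂ} (h : Cls p L) (h0 : (L 0).re = 0)
    {D : ℝ} (hB : Big p D L) : ∃ v : ℂ, ‖v‖ = 1 ∧ ∃ E : ℂ → ℝ, Measurable E ∧ (∀ z, 0 ≤ E z) ∧
      (∫⁻ z in ball (0 : ℂ) 1, ENNReal.ofReal (E z ^ 2)) ≠ ⊤ ∧
      ∀ z ∈ ball (0 : ℂ) 1, 0 ≤ (L z).re → ‖deriv L z‖ ≤ 400 * (1 / ‖v - z‖ + E z) := by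
  classical
  obtain ⟨v, hv, K, hK, f1, f2⟩ := fatou hp hp1 h h0 hB
  have hv0 : v ≠ 0 := by
    rintro rfl
    rw [norm_zero] at hv
    exact zero_ne_one hv
  set P : ℂ → ℂ := (ball (0 : ℂ) 1).piecewise (fun z => deriv L z * v * (kap L z : ℂ))
    (fun _ => 0) with hP
  set Q : ℂ → ℂ := fun z => (if 1 < (MQV.lg (z / v)).re then (2 * p : ℂ) else 0) *
    (2 / (1 - (z / v) ^ 2)) with hQ
  set G : ℂ → ℝ := fun ζ => ‖gs L v ζ - (if 1 < ζ.re then (2 * p : ℂ) else 0)‖ with hG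
  have hPm : Measurable P :=
    ContinuousOn.measurable_piecewise (kap_meas h.diff v) continuousOn_const measurableSet_ball
  have hlgm : Measurable fun z : ℂ => (MQV.lg (z / v)).re := by
    unfold MQV.lg
    fun_prop
  have hQm : Measurable Q := by
    refine Measurable.mul (Measurable.ite (measurableSet_lt measurable_const hlgm)
      measurable_const measurable_const) ?_
    fun_prop
  have hs : ∀ z ∈ ball (0 : ℂ) 1, 1 - (z / v) ^ 2 ≠ 0 := by
    intro z hz h1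
    rw [mem_ball_zero_iff] at hz
    have h2 : ‖(z / v) ^ 2‖ < 1 := by
      rw [norm_pow, norm_div, hv, div_one]
      have := norm_nonneg z
      nlinarith
    rw [← sub_eq_zero.1 h1, norm_one] at h2
    exact lt_irrefl _ h2
  have hE : ∀ z ∈ ball (0 : ℂ) 1, ‖P z - Q z‖ =
      G (MQV.lg (z / v)) * (2 / ‖1 - (z / v) ^ 2‖) := by
    intro z hz
    have h1 : P z = deriv L z * v * (kap L z : ℂ) := piecewise_eq_of_mem _ _ _ hz
    rw [hG]
    dsimp only
    rw [gs_eq h.diff hv hz, h1, hQ]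
    dsimp only
    set c : ℂ := if 1 < (MQV.lg (z / v)).re then (2 * p : ℂ) else 0
    have h2 : (2 : ℝ) / ‖1 - (z / v) ^ 2‖ = ‖(2 : ℂ) / (1 - (z / v) ^ 2)‖ := by
      rw [norm_div]
      norm_num
    rw [h2, ← norm_mul]
    congr 1
    have h3 := hs z hz
    generalize 1 - (z / v) ^ 2 = s at h3 ⊢
    field_simp
  refine ⟨v, hv, fun z => ‖P z - Q z‖, (hPm.sub hQm).norm, fun z => norm_nonneg _, ?_, ?_⟩
  · have h1 : (∫⁻ z in ball (0 : ℂ) 1, ENNReal.ofReal (‖P z - Q z‖ ^ 2)) =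
        ∫⁻ ζ in MQV.Str, ENNReal.ofReal (G ζ ^ 2) := by
      rw [← transfer hv G]
      refine setLIntegral_congr_fun measurableSet_ball fun z hz => ?_
      rw [hE z hz]
    have h2 : MQV.Str ⊆ {ζ | ζ ∈ MQV.Str ∧ 1 < ζ.re} ∪ {ζ | ζ ∈ MQV.Str ∧ ζ.re ≤ 1} := by
      intro ζ hζ
      rcases lt_or_ge 1 ζ.re with h3 | h3
      · exact Or.inl ⟨hζ, h3⟩
      · exact Or.inr ⟨hζ, h3⟩
    have m1 : MeasurableSet {ζ : ℂ | ζ ∈ MQV.Str ∧ 1 < ζ.re} :=
      MQV.isOpen_Str.measurableSet.inter (measurableSet_lt measurable_const Complex.measurable_re)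
    have m2 : MeasurableSet {ζ : ℂ | ζ ∈ MQV.Str ∧ ζ.re ≤ 1} :=
      MQV.isOpen_Str.measurableSet.inter (measurableSet_le Complex.measurable_re measurable_const)
    change (∫⁻ z in ball (0 : ℂ) 1, ENNReal.ofReal (‖P z - Q z‖ ^ 2)) ≠ ⊤
    rw [h1]
    refine ne_top_of_le_ne_top (b := ENNReal.ofReal K + ENNReal.ofReal K) (by simp) ?_
    calc ∫⁻ ζ in MQV.Str, ENNReal.ofReal (G ζ ^ 2) ≤
        ∫⁻ ζ in {ζ | ζ ∈ MQV.Str ∧ 1 < ζ.re} ∪ {ζ | ζ ∈ MQV.Str ∧ ζ.re ≤ 1},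
          ENNReal.ofReal (G ζ ^ 2) := lintegral_mono_set h2
      _ ≤ (∫⁻ ζ in {ζ | ζ ∈ MQV.Str ∧ 1 < ζ.re}, ENNReal.ofReal (G ζ ^ 2)) +
          ∫⁻ ζ in {ζ | ζ ∈ MQV.Str ∧ ζ.re ≤ 1}, ENNReal.ofReal (G ζ ^ 2) :=
        lintegral_union_le _ _ _
      _ ≤ _ := by
        refine add_le_add ?_ ?_
        · refine le_trans (le_of_eq ?_) f1
          refine setLIntegral_congr_fun m1 fun ζ hζ => ?_
          rw [hG]
          dsimp only
          rw [if_pos hζ.2]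
        · refine le_trans (le_of_eq ?_) f2
          refine setLIntegral_congr_fun m2 fun ζ hζ => ?_
          rw [hG]
          dsimp only
          rw [if_neg (not_lt.2 hζ.2), sub_zero]
  · intro z hz hre
    have hz1 := mem_ball_zero_iff.1 hz
    have h1 : P z = deriv L z * v * (kap L z : ℂ) := piecewise_eq_of_mem _ _ _ hz
    have hk := kap_ge hre
    have h2 : ‖deriv L z‖ / 82 ≤ ‖P z‖ := by
      rw [h1, norm_mul, norm_mul, hv, mul_one, Complex.norm_real,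
        Real.norm_of_nonneg (by linarith)]
      calc ‖deriv L z‖ / 82 = ‖deriv L z‖ * (1 / 82) := by ring
        _ ≤ _ := mul_le_mul_of_nonneg_left hk (norm_nonneg _)
    have h3 : ‖P z‖ ≤ ‖P z - Q z‖ + ‖Q z‖ := by
      calc ‖P z‖ = ‖(P z - Q z) + Q z‖ := by rw [sub_add_cancel]
        _ ≤ _ := norm_add_le _ _
    have hvz : ‖1 - z / v‖ = ‖v - z‖ := by
      have h4 : v - z = v * (1 - z / v) := by
        field_simp
      rw [h4, norm_mul, hv, one_mul]
    have hpos : 0 < ‖v - z‖ := by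
      rw [norm_pos_iff, sub_ne_zero]
      rintro rfl
      exact absurd hz1 (not_lt.2 hv.ge)
    have h4 : ‖Q z‖ ≤ 4 * (1 / ‖v - z‖) := by
      rw [hQ]
      dsimp only
      split_ifs with h5
      · have h6 : 1 ≤ ‖1 + z / v‖ := by
          have hw : z / v ∈ ball (0 : ℂ) 1 := by
            rw [mem_ball_zero_iff, norm_div, hv, div_one]
            exact hz1
          unfold MQV.lg at h5
          rw [Complex.log_re, norm_div] at h5
          have h7 : 1 < ‖1 + z / v‖ / ‖1 - z / v‖ := by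
            by_contra h8
            have := Real.log_nonpos (by positivity) (not_lt.1 h8)
            linarith
          rw [lt_div_iff₀ (by rw [hvz]; exact hpos), one_mul] at h7
          have h8 : ‖(2 : ℂ)‖ ≤ ‖1 + z / v‖ + ‖1 - z / v‖ := by
            calc ‖(2 : ℂ)‖ = ‖(1 + z / v) + (1 - z / v)‖ := by
                  congr 1
                  ring
              _ ≤ _ := norm_add_le _ _
          have h9 : ‖(2 : ℂ)‖ = 2 := by simp
          rw [h9] at h8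
          linarith
        have h7 : ‖1 - (z / v) ^ 2‖ = ‖1 + z / v‖ * ‖v - z‖ := by
          rw [← hvz, ← norm_mul]
          congr 1
          ring
        have h8 : ‖(2 * p : ℂ)‖ = 2 * p := by
          rw [norm_mul, Complex.norm_real, Real.norm_of_nonneg hp.le]
          norm_num
        have h9 : ‖(2 : ℂ)‖ = 2 := by simp
        rw [norm_mul, norm_div, h7, h8, h9]
        calc 2 * p * (2 / (‖1 + z / v‖ * ‖v - z‖)) ≤ 2 * 1 * (2 / (1 * ‖v - z‖)) := by
              gcongr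
          _ = 4 * (1 / ‖v - z‖) := by
              rw [one_mul]
              ring
      · rw [zero_mul, norm_zero]
        positivity
    have h5 : 0 ≤ ‖P z - Q z‖ := norm_nonneg _
    have h6 : 0 ≤ 1 / ‖v - z‖ := by positivity
    change ‖deriv L z‖ ≤ 400 * (1 / ‖v - z‖ + ‖P z - Q z‖)
    linarith

end KQS
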